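import Pool.Agent.Helper68.Moeller.Basic

/-!
The exceptional set meets at most `C d^(η k)` residue classes modulo `d^k`.
-/

namespace Pool.Agent.Helper68.Moeller

open Real

/-- The exponent: `η = (p log (d-1) + h(p)) / log d`, `p = log d / log m`, `h` the binary entropy
(natural logarithms). -/
noncomputable def eta (d m : ℕ) : ℝ :=
  Real.qaryEntropy d (Real.log d / Real.log m) / Real.log d

variable {d m : ℕ} {r : ℤ → ℤ}

section exponent

lemma log_d_pos (hd : 2 ≤ d) : 0 < Real.log d := Real.log_pos (by exact_mod_cast hd)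

lemma log_m_gt (hd : 2 ≤ d) (hdm : d < m) : Real.log d < Real.log m :=
  Real.log_lt_log (by positivity) (by exact_mod_cast hdm)

/-- the critical inequality is strict -/
lemma log_m_lt (hd : 2 ≤ d) (hdm : d < m) (hco : Nat.Coprime m d)
    (hm : (m : ℝ) ≤ (d : ℝ) ^ ((d : ℝ) / ((d : ℝ) - 1))) :
    ((d : ℝ) - 1) * Real.log m < d * Real.log d := by
  have hd' : (2 : ℝ) ≤ d := by exact_mod_cast hd
  have hm0 : (0 : ℝ) < m := by
    have : 0 < m := by omega
    exact_mod_cast this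
  have h1 : Real.log m ≤ (d : ℝ) / ((d : ℝ) - 1) * Real.log d := by
    rw [← Real.log_rpow (by linarith)]
    exact Real.log_le_log hm0 hm
  have h2 : ((d : ℝ) - 1) * Real.log m ≤ d * Real.log d := by
    have := mul_le_mul_of_nonneg_left h1 (by linarith : (0 : ℝ) ≤ (d : ℝ) - 1)
    refine this.trans (le_of_eq ?_)
    have h3 : (d : ℝ) - 1 ≠ 0 := by linarith
    field_simp
  refine lt_of_le_of_ne h2 ?_
  intro heq
  -- m^(d-1) = d^d
  have h3 : (m : ℝ) ^ (d - 1) = (d : ℝ) ^ d := by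
    apply Real.log_injOn_pos (Set.mem_Ioi.mpr (by positivity)) (Set.mem_Ioi.mpr (by positivity))
    rw [Real.log_pow, Real.log_pow, ← heq]
    push_cast [Nat.cast_sub (by omega : 1 ≤ d)]
    ring
  have h4 : m ^ (d - 1) = d ^ d := by exact_mod_cast h3
  have h5 : Nat.Coprime (m ^ (d - 1)) d := Nat.Coprime.pow_left _ hco
  rw [h4] at h5
  have h6 : Nat.Coprime d d := Nat.Coprime.coprime_dvd_left (dvd_pow_self d (by omega)) h5
  rw [Nat.coprime_self] at h6
  omega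

lemma p_bounds (hd : 2 ≤ d) (hdm : d < m) (hco : Nat.Coprime m d)
    (hm : (m : ℝ) ≤ (d : ℝ) ^ ((d : ℝ) / ((d : ℝ) - 1))) :
    1 - 1 / (d : ℝ) < Real.log d / Real.log m ∧ Real.log d / Real.log m < 1 := by
  have h1 := log_d_pos hd
  have h2 := log_m_gt hd hdm
  have h3 := log_m_lt hd hdm hco hm
  have hd' : (2 : ℝ) ≤ d := by exact_mod_cast hd
  constructor
  · rw [lt_div_iff₀ (h1.trans h2)]
    have : (1 - 1 / (d : ℝ)) * Real.log m = ((d : ℝ) - 1) * Real.log m / d := by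
      field_simp
    rw [this, div_lt_iff₀ (by linarith)]
    linarith
  · rw [div_lt_one (h1.trans h2)]
    exact h2

lemma qary_crit (hd : 2 ≤ d) : Real.qaryEntropy d (1 - 1 / (d : ℝ)) = Real.log d := by
  have hd' : (2 : ℝ) ≤ d := by exact_mod_cast hd
  have h1 : (d : ℝ) - 1 ≠ 0 := by linarith
  have h0 : (d : ℝ) ≠ 0 := by linarith
  rw [Real.qaryEntropy, Real.binEntropy]
  have e1 : (1 - 1 / (d : ℝ))⁻¹ = d / (d - 1) := by
    rw [eq_div_iff h1]
    field_simp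
  have e2 : (1 - (1 - 1 / (d : ℝ)))⁻¹ = d := by
    field_simp
    ring
  have e3 : 1 - (1 - 1 / (d : ℝ)) = 1 / d := by ring
  rw [e1, e2, e3, Real.log_div h0 h1]
  push_cast
  field_simp
  ring

lemma eta_pos (hd : 2 ≤ d) (hdm : d < m) : 0 < eta d m := by
  have h1 := log_d_pos hd
  have h2 := log_m_gt hd hdm
  apply div_pos _ h1
  apply Real.qaryEntropy_pos (div_pos h1 (h1.trans h2))
  rw [div_lt_one (h1.trans h2)]
  exact h2

lemma eta_lt_one (hd : 2 ≤ d) (hdm : d < m) (hco : Nat.Coprime m d)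
    (hm : (m : ℝ) ≤ (d : ℝ) ^ ((d : ℝ) / ((d : ℝ) - 1))) : eta d m < 1 := by
  have h1 := log_d_pos hd
  obtain ⟨h2, h3⟩ := p_bounds hd hdm hco hm
  rw [eta, div_lt_one h1]
  have hd' : (2 : ℝ) ≤ d := by exact_mod_cast hd
  have h4 : 1 / (d : ℝ) ≤ 1 / 2 := by
    apply one_div_le_one_div_of_le <;> linarith
  have h5 : (0 : ℝ) < 1 / d := by positivity
  have := Real.qaryEntropy_strictAntiOn hd (a := 1 - 1 / (d : ℝ))
    (b := Real.log d / Real.log m) ⟨by norm_num, by linarith⟩ ⟨by norm_num at h2 ⊢; linarith, h3.le⟩ h2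
  rwa [qary_crit hd] at this

/-- The Chernoff identity. -/
lemma chernoff_id (hd : 2 ≤ d) {p : ℝ} (hp0 : 0 < p) (hp1 : p < 1) :
    (1 + ((d : ℝ) - 1) * (p / ((1 - p) * ((d : ℝ) - 1)))) *
      (p / ((1 - p) * ((d : ℝ) - 1))) ^ (-p) = Real.exp (Real.qaryEntropy d p) := by
  have hd' : (2 : ℝ) ≤ d := by exact_mod_cast hd
  have h1 : (0 : ℝ) < (d : ℝ) - 1 := by linarith
  have h2 : 0 < 1 - p := by linarith
  have e1 : 1 + ((d : ℝ) - 1) * (p / ((1 - p) * ((d : ℝ) - 1))) = (1 - p)⁻¹ := by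
    field_simp
    ring
  have hz : 0 < p / ((1 - p) * ((d : ℝ) - 1)) := by positivity
  rw [e1, Real.rpow_def_of_pos hz, ← Real.exp_log (inv_pos.mpr h2), ← Real.exp_add]
  congr 1
  rw [Real.log_div hp0.ne' (by positivity), Real.log_mul h2.ne' h1.ne', Real.qaryEntropy,
    Real.binEntropy, Real.log_inv, Real.log_inv]
  push_cast
  ring

end exponent

/-- Chernoff bound for the number of residue classes. -/
lemma chernoff (hd : 2 ≤ d) (hdm : d < m) (hco : Nat.Coprime m d)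
    (hm : (m : ℝ) ≤ (d : ℝ) ^ ((d : ℝ) / ((d : ℝ) - 1))) :
    ∃ C : ℝ, 0 ≤ C ∧ ∀ r : ℤ → ℤ, Admissible d m r → ∀ (k : ℕ) (S : Finset ℤ),
      (∀ x ∈ S, ∀ y ∈ S, (d : ℤ) ^ k ∣ x - y → x = y) →
      (∀ x ∈ S, (d : ℝ) ^ k ≤ 2 * (m : ℝ) ^ cnt d m r k x) →
      (S.card : ℝ) ≤ C * ((d : ℝ) ^ k) ^ eta d m := by
  have h1 := log_d_pos hd
  have h2 := log_m_gt hd hdm
  have hlm : 0 < Real.log m := h1.trans h2
  obtain ⟨h3, h4⟩ := p_bounds hd hdm hco hm
  have hd' : (2 : ℝ) ≤ d := by exact_mod_cast hd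
  set p := Real.log d / Real.log m with hp
  have hp0 : 0 < p := div_pos h1 hlm
  set z := p / ((1 - p) * ((d : ℝ) - 1)) with hz
  have hd1 : (0 : ℝ) < (d : ℝ) - 1 := by linarith
  have hz1 : 1 ≤ z := by
    rw [hz, one_le_div (mul_pos (by linarith) hd1)]
    have : (1 - 1 / (d : ℝ)) * d < p * d := mul_lt_mul_of_pos_right h3 (by linarith)
    have e : (1 - 1 / (d : ℝ)) * d = d - 1 := by field_simp
    nlinarith
  have hz0 : 0 < z := by linarith
  refine ⟨z ^ (Real.log 2 / Real.log m), by positivity, ?_⟩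
  intro r hr k S hS hbig
  have hsum := sum_le hr hd hco hz0.le k S hS
  have hlow : ∀ x ∈ S, z ^ (p * k - Real.log 2 / Real.log m) ≤ z ^ cnt d m r k x := by
    intro x hx
    have hb := hbig x hx
    have hmpos : (0 : ℝ) < m := by
      have : 0 < m := by omega
      exact_mod_cast this
    have h5 : (k : ℝ) * Real.log d ≤ Real.log 2 + (cnt d m r k x : ℝ) * Real.log m := by
      have := Real.log_le_log (by positivity) hb
      rwa [Real.log_pow, Real.log_mul (by norm_num) (by positivity), Real.log_pow] at this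
    rw [← Real.rpow_natCast]
    apply Real.rpow_le_rpow_of_exponent_le hz1
    rw [hp, div_mul_eq_mul_div, ← sub_div, div_le_iff₀ hlm]
    linarith
  have h6 : (S.card : ℝ) * z ^ (p * k - Real.log 2 / Real.log m) ≤
      (1 + ((d : ℝ) - 1) * z) ^ k := by
    refine le_trans ?_ hsum
    rw [← nsmul_eq_mul]
    exact Finset.card_nsmul_le_sum _ _ _ hlow
  have h7 : (S.card : ℝ) ≤ (1 + ((d : ℝ) - 1) * z) ^ k *
      z ^ (Real.log 2 / Real.log m - p * k) := by
    have h8 : z ^ (Real.log 2 / Real.log m - p * k) =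
        (z ^ (p * k - Real.log 2 / Real.log m))⁻¹ := by
      rw [← Real.rpow_neg hz0.le]
      congr 1
      ring
    rw [h8, ← div_eq_mul_inv, le_div_iff₀ (by positivity)]
    exact h6
  refine h7.trans (le_of_eq ?_)
  have h9 := chernoff_id hd hp0 h4
  rw [← hz] at h9
  have h10 : ((d : ℝ) ^ k) ^ eta d m = Real.exp (Real.qaryEntropy d p) ^ k := by
    rw [← Real.rpow_natCast, ← Real.rpow_mul (by positivity), Real.rpow_def_of_pos (by positivity),
      ← Real.exp_nat_mul]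
    congr 1
    rw [eta, ← hp]
    field_simp
  rw [h10, ← h9, mul_pow, ← Real.rpow_natCast (z ^ (-p)), ← Real.rpow_mul hz0.le]
  rw [show Real.log 2 / Real.log m - p * k = Real.log 2 / Real.log m + -p * k by ring,
    Real.rpow_add hz0]
  ring

/-- a set of pairwise incongruent integers modulo `d^k` has at most `d^k` elements. -/
lemma card_le (hd : 2 ≤ d) (hco : Nat.Coprime m d) (hr : Admissible d m r) (k : ℕ) (S : Finset ℤ)
    (hS : ∀ x ∈ S, ∀ y ∈ S, (d : ℤ) ^ k ∣ x - y → x = y) : (S.card : ℝ) ≤ (d : ℝ) ^ k := by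
  have := sum_le hr hd hco (zero_le_one) k S hS
  simpa using this

/-- the exponent of the dependence on `R` -/
noncomputable def kap (d m : ℕ) : ℝ := Real.log d / (2 * Real.log d - Real.log m)

lemma log_m_lt_two (hd : 2 ≤ d) (hdm : d < m) (hco : Nat.Coprime m d)
    (hm : (m : ℝ) ≤ (d : ℝ) ^ ((d : ℝ) / ((d : ℝ) - 1))) :
    0 < 2 * Real.log d - Real.log m := by
  have h3 := log_m_lt hd hdm hco hm
  have h1 := log_d_pos hd
  have hd' : (2 : ℝ) ≤ d := by exact_mod_cast hd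
  by_contra hcon
  push Not at hcon
  have : ((d : ℝ) - 1) * (2 * Real.log d) ≤ ((d : ℝ) - 1) * Real.log m :=
    mul_le_mul_of_nonneg_left (by linarith) (by linarith)
  nlinarith

lemma kap_pos (hd : 2 ≤ d) (hdm : d < m) (hco : Nat.Coprime m d)
    (hm : (m : ℝ) ≤ (d : ℝ) ^ ((d : ℝ) / ((d : ℝ) - 1))) : 0 < kap d m :=
  div_pos (log_d_pos hd) (log_m_lt_two hd hdm hco hm)

/-- the bound for the large elements of `E`. -/
lemma large_bound (hd : 2 ≤ d) (hdm : d < m) (hco : Nat.Coprime m d)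
    (hm : (m : ℝ) ≤ (d : ℝ) ^ ((d : ℝ) / ((d : ℝ) - 1))) :
    ∃ C : ℝ, 0 ≤ C ∧ ∀ r : ℤ → ℤ, Admissible d m r → ∀ B : ℤ, 1 ≤ B →
      (∀ j : ℤ, 0 < j → j < (d : ℤ) → |r j| ≤ B) → ∀ (k : ℕ) (S : Finset ℤ),
      (∀ x ∈ S, ∀ y ∈ S, (d : ℤ) ^ k ∣ x - y → x = y) →
      (∀ x ∈ S, x ∈ E d m r ∧ B < x ∧ (d : ℤ) ^ k ≤ x) →
      (S.card : ℝ) ≤ C * (B : ℝ) ^ kap d m * ((d : ℝ) ^ k) ^ eta d m := by
  obtain ⟨C, hC0, hC⟩ := chernoff hd hdm hco hm
  have hd' : (2 : ℝ) ≤ d := by exact_mod_cast hd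
  have hmpos : (0 : ℝ) < m := by
    have : 0 < m := by omega
    exact_mod_cast this
  have hrho := log_m_lt_two hd hdm hco hm
  have hkap := kap_pos hd hdm hco hm
  refine ⟨max C (d * 2 ^ kap d m), le_trans hC0 (le_max_left _ _), ?_⟩
  intro r hr B hB1 hB k S hS hE
  have hB1' : (1 : ℝ) ≤ B := by exact_mod_cast hB1
  have hBk : 1 ≤ (B : ℝ) ^ kap d m := Real.one_le_rpow hB1' hkap.le
  have hone : 1 ≤ ((d : ℝ) ^ k) ^ eta d m :=
    Real.one_le_rpow (one_le_pow₀ (by linarith)) (eta_pos hd hdm).le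
  by_cases hk : 2 * (B : ℝ) * (m : ℝ) ^ k ≤ ((d : ℝ) ^ 2) ^ k
  · have hmain : (S.card : ℝ) ≤ C * ((d : ℝ) ^ k) ^ eta d m := by
      refine hC r hr k S hS ?_
      intro x hx
      obtain ⟨hxE, hxB, hxd⟩ := hE x hx
      have h1 := E_T hr hd (by omega) hB hxE hxB k
      have h2 := affine hr hd hdm hB k x
      have h3 := (le_abs_self _).trans h2
      have hx0 : 0 < x := hxE.1
      by_contra hcon
      push Not at hcon
      have h1' : (x : ℝ) ≤ ((T d m r)^[k] x : ℤ) := by exact_mod_cast h1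
      have h3' : (d : ℝ) ^ k * ((T d m r)^[k] x : ℤ) - (m : ℝ) ^ cnt d m r k x * x ≤
          B * ((m : ℝ) ^ k - (d : ℝ) ^ k) := by exact_mod_cast h3
      have hxd' : (d : ℝ) ^ k ≤ x := by exact_mod_cast hxd
      have hx0' : (0 : ℝ) < x := by exact_mod_cast hx0
      have hdk : (0 : ℝ) < (d : ℝ) ^ k := by positivity
      have h4 : (d : ℝ) ^ k * x ≤ (d : ℝ) ^ k * ((T d m r)^[k] x : ℤ) :=
        mul_le_mul_of_nonneg_left h1' hdk.le
      have h5 : 2 * ((m : ℝ) ^ cnt d m r k x * x) < (d : ℝ) ^ k * x := by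
        have := mul_lt_mul_of_pos_right hcon hx0'
        linarith
      have h6 : (d : ℝ) ^ k * (d : ℝ) ^ k ≤ (d : ℝ) ^ k * x :=
        mul_le_mul_of_nonneg_left hxd' hdk.le
      have h7 := hk
      rw [← pow_mul, mul_comm 2 k, pow_mul, sq] at h7
      have h8 : 0 ≤ (B : ℝ) * (d : ℝ) ^ k := by positivity
      linarith
    refine hmain.trans (mul_le_mul_of_nonneg_right ?_ (zero_le_one.trans hone))
    calc C ≤ max C (d * 2 ^ kap d m) * 1 := by rw [mul_one]; exact le_max_left _ _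
      _ ≤ _ := mul_le_mul_of_nonneg_left hBk (le_trans hC0 (le_max_left _ _))
  · push Not at hk
    have h1 := card_le hd hco hr k S hS
    -- `d^k ≤ (2B)^κ`
    have h2 : (d : ℝ) ^ k ≤ (2 * (B : ℝ)) ^ kap d m := by
      have h3 : ((d : ℝ) ^ 2) ^ k < 2 * (B : ℝ) * (m : ℝ) ^ k := hk
      have h4 := Real.log_lt_log (by positivity) h3
      rw [Real.log_mul (by positivity) (by positivity), Real.log_pow, Real.log_pow,
        Real.log_pow] at h4
      push_cast at h4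
      have h5 : (k : ℝ) * (2 * Real.log d - Real.log m) ≤ Real.log (2 * (B : ℝ)) := by linarith
      rw [← Real.log_le_log_iff (by positivity) (by positivity), Real.log_pow,
        Real.log_rpow (by positivity), kap, div_mul_eq_mul_div, le_div_iff₀ hrho]
      have h6 := mul_le_mul_of_nonneg_left h5 (log_d_pos hd).le
      linarith
    rw [Real.mul_rpow (by norm_num) (by positivity)] at h2
    refine (h1.trans h2).trans ?_
    have h3 : (2 : ℝ) ^ kap d m ≤ max C (d * 2 ^ kap d m) := by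
      refine le_trans ?_ (le_max_right _ _)
      have : (0 : ℝ) < 2 ^ kap d m := by positivity
      nlinarith
    calc (2 : ℝ) ^ kap d m * (B : ℝ) ^ kap d m
        ≤ max C (d * 2 ^ kap d m) * (B : ℝ) ^ kap d m :=
          mul_le_mul_of_nonneg_right h3 (by positivity)
      _ = max C (d * 2 ^ kap d m) * (B : ℝ) ^ kap d m * 1 := by rw [mul_one]
      _ ≤ _ := mul_le_mul_of_nonneg_left hone
          (mul_nonneg (le_trans hC0 (le_max_left _ _)) (by positivity))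

/-- the bound for the elements of `E` below `d^k`. -/
lemma small_bound (hd : 2 ≤ d) (hdm : d < m) (hco : Nat.Coprime m d)
    (hm : (m : ℝ) ≤ (d : ℝ) ^ ((d : ℝ) / ((d : ℝ) - 1))) :
    ∃ C : ℝ, 0 ≤ C ∧ ∀ r : ℤ → ℤ, Admissible d m r → ∀ B : ℤ, 1 ≤ B →
      (∀ j : ℤ, 0 < j → j < (d : ℤ) → |r j| ≤ B) → ∀ (k : ℕ) (S : Finset ℤ),
      (∀ x ∈ S, x ∈ E d m r ∧ B < x ∧ x < (d : ℤ) ^ k) →
      (S.card : ℝ) ≤ C * (B : ℝ) ^ kap d m * ((d : ℝ) ^ k) ^ eta d m := by
  obtain ⟨C₀, hC₀0, hC₀⟩ := large_bound hd hdm hco hm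
  have hd' : (2 : ℝ) ≤ d := by exact_mod_cast hd
  have heta := eta_pos hd hdm
  have hdeta : 1 < (d : ℝ) ^ eta d m := Real.one_lt_rpow (by linarith) heta
  refine ⟨d * C₀ / ((d : ℝ) ^ eta d m - 1), by
    apply div_nonneg (by positivity); linarith, ?_⟩
  intro r hr B hB1 hB
  have hB1' : (1 : ℝ) ≤ B := by exact_mod_cast hB1
  set C := C₀ * (B : ℝ) ^ kap d m with hCdef
  have hC0 : 0 ≤ C := by positivity
  have hC : ∀ (k : ℕ) (S : Finset ℤ),
      (∀ x ∈ S, ∀ y ∈ S, (d : ℤ) ^ k ∣ x - y → x = y) →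
      (∀ x ∈ S, x ∈ E d m r ∧ B < x ∧ (d : ℤ) ^ k ≤ x) →
      (S.card : ℝ) ≤ C * ((d : ℝ) ^ k) ^ eta d m := hC₀ r hr B hB1 hB
  have hCC : d * C₀ / ((d : ℝ) ^ eta d m - 1) * (B : ℝ) ^ kap d m =
      d * C / ((d : ℝ) ^ eta d m - 1) := by
    rw [hCdef]; ring
  rw [hCC]
  set C' := d * C / ((d : ℝ) ^ eta d m - 1) with hC'
  have hC'' : C' * ((d : ℝ) ^ eta d m - 1) = d * C := by
    rw [hC']
    exact div_mul_cancel₀ _ (by linarith)
  have hC'0 : 0 ≤ C' := by
    rw [hC']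
    apply div_nonneg (by positivity); linarith
  intro k
  induction k with
  | zero =>
    intro S hS
    have : S = ∅ := by
      apply Finset.eq_empty_of_forall_notMem
      intro x hx
      obtain ⟨h1, _, h3⟩ := hS x hx
      have := h1.1
      rw [pow_zero] at h3
      omega
    rw [this]
    simp only [Finset.card_empty, Nat.cast_zero]
    positivity
  | succ k ih =>
    intro S hS
    have hdk : (0 : ℤ) < (d : ℤ) ^ k := by positivity
    -- split
    have hsplit : S.card = (S.filter (fun x => x < (d : ℤ) ^ k)).card +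
        (S.filter (fun x => ¬ x < (d : ℤ) ^ k)).card :=
      (Finset.card_filter_add_card_filter_not _).symm
    have h1 : ((S.filter (fun x => x < (d : ℤ) ^ k)).card : ℝ) ≤ C' * ((d : ℝ) ^ k) ^ eta d m := by
      apply ih
      intro x hx
      obtain ⟨hx1, hx2⟩ := Finset.mem_filter.mp hx
      exact ⟨(hS x hx1).1, (hS x hx1).2.1, hx2⟩
    have h2 : ((S.filter (fun x => ¬ x < (d : ℤ) ^ k)).card : ℝ) ≤
        d * (C * ((d : ℝ) ^ k) ^ eta d m) := by
      have hmaps : ∀ x ∈ S.filter (fun x => ¬ x < (d : ℤ) ^ k),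
          (x / (d : ℤ) ^ k).toNat ∈ Finset.range d := by
        intro x hx
        obtain ⟨hx1, hx2⟩ := Finset.mem_filter.mp hx
        have h3 := (hS x hx1).2.2
        rw [Finset.mem_range]
        have h4 : x / (d : ℤ) ^ k < d := by
          apply Int.ediv_lt_of_lt_mul hdk
          rw [← pow_succ']; exact h3
        have h5 : 0 ≤ x / (d : ℤ) ^ k := Int.ediv_nonneg (by omega) hdk.le
        omega
      rw [Finset.card_eq_sum_card_fiberwise hmaps]
      push_cast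
      have h3 : ∀ j ∈ Finset.range d,
          (((S.filter (fun x => ¬ x < (d : ℤ) ^ k)).filter
            (fun x => (x / (d : ℤ) ^ k).toNat = j)).card : ℝ) ≤
            C * ((d : ℝ) ^ k) ^ eta d m := by
        intro j _
        apply hC
        · intro x hx y hy hxy
          obtain ⟨hx1, hx2⟩ := Finset.mem_filter.mp hx
          obtain ⟨hy1, hy2⟩ := Finset.mem_filter.mp hy
          obtain ⟨hx3, hx4⟩ := Finset.mem_filter.mp hx1
          obtain ⟨hy3, hy4⟩ := Finset.mem_filter.mp hy1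
          have h5 : 0 ≤ x / (d : ℤ) ^ k := Int.ediv_nonneg (by omega) hdk.le
          have h6 : 0 ≤ y / (d : ℤ) ^ k := Int.ediv_nonneg (by omega) hdk.le
          have h7 : x / (d : ℤ) ^ k = y / (d : ℤ) ^ k := by omega
          have h8 : x % (d : ℤ) ^ k = y % (d : ℤ) ^ k := by
            have h9 : y ≡ x [ZMOD (d : ℤ) ^ k] := Int.modEq_iff_dvd.mpr hxy
            exact h9.symm
          rw [← Int.mul_ediv_add_emod x ((d : ℤ) ^ k), ← Int.mul_ediv_add_emod y ((d : ℤ) ^ k),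
            h7, h8]
        · intro x hx
          obtain ⟨hx1, hx2⟩ := Finset.mem_filter.mp hx
          obtain ⟨hx3, hx4⟩ := Finset.mem_filter.mp hx1
          exact ⟨(hS x hx3).1, (hS x hx3).2.1, by omega⟩
      refine (Finset.sum_le_sum h3).trans ?_
      rw [Finset.sum_const, Finset.card_range, nsmul_eq_mul]
    have e1 : ((d : ℝ) ^ (k + 1)) ^ eta d m = ((d : ℝ) ^ k) ^ eta d m * (d : ℝ) ^ eta d m := by
      rw [pow_succ, Real.mul_rpow (by positivity) (by positivity)]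
    rw [hsplit, e1]
    push_cast
    have e2 : C' * (((d : ℝ) ^ k) ^ eta d m * (d : ℝ) ^ eta d m) =
        C' * ((d : ℝ) ^ k) ^ eta d m + (C' * ((d : ℝ) ^ eta d m - 1)) *
          ((d : ℝ) ^ k) ^ eta d m := by ring
    rw [e2, hC'']
    have e3 : (d : ℝ) * C * ((d : ℝ) ^ k) ^ eta d m = d * (C * ((d : ℝ) ^ k) ^ eta d m) := by ring
    rw [e3]
    exact add_le_add h1 h2

/-- **Main bound**: pairwise incongruent elements of `E` modulo `d^k`, with a constant depending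
polynomially on `R`. -/
lemma main_bound_unif (hd : 2 ≤ d) (hdm : d < m) (hco : Nat.Coprime m d)
    (hm : (m : ℝ) ≤ (d : ℝ) ^ ((d : ℝ) / ((d : ℝ) - 1))) :
    ∃ C : ℝ, 0 ≤ C ∧ ∀ r : ℤ → ℤ, Admissible d m r → ∀ B : ℤ, 1 ≤ B →
      (∀ j : ℤ, 0 < j → j < (d : ℤ) → |r j| ≤ B) → ∀ (k : ℕ) (S : Finset ℤ),
      (∀ x ∈ S, ∀ y ∈ S, (d : ℤ) ^ k ∣ x - y → x = y) →
      (∀ x ∈ S, x ∈ E d m r) →
      (S.card : ℝ) ≤ C * (B : ℝ) ^ (1 + kap d m) * ((d : ℝ) ^ k) ^ eta d m := by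
  obtain ⟨C₁, hC₁0, hC₁⟩ := large_bound hd hdm hco hm
  obtain ⟨C₂, hC₂0, hC₂⟩ := small_bound hd hdm hco hm
  have hkap := kap_pos hd hdm hco hm
  have hd' : (2 : ℝ) ≤ d := by exact_mod_cast hd
  refine ⟨1 + C₂ + C₁, by positivity, ?_⟩
  intro r hr B hB1 hB k S hS hE
  have hB1' : (1 : ℝ) ≤ B := by exact_mod_cast hB1
  have hBpow : (B : ℝ) ^ (1 + kap d m) = B * (B : ℝ) ^ kap d m := by
    rw [Real.rpow_add (by linarith), Real.rpow_one]
  have hBk : 1 ≤ (B : ℝ) ^ kap d m := Real.one_le_rpow hB1' hkap.le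
  have hone : 1 ≤ ((d : ℝ) ^ k) ^ eta d m :=
    Real.one_le_rpow (one_le_pow₀ (by linarith)) (eta_pos hd hdm).le
  have hsub : S ⊆ (Finset.Icc 1 B) ∪ (S.filter (fun x => B < x ∧ x < (d : ℤ) ^ k) ∪
      S.filter (fun x => B < x ∧ (d : ℤ) ^ k ≤ x)) := by
    intro x hx
    have := (hE x hx).1
    simp only [Finset.mem_union, Finset.mem_Icc, Finset.mem_filter]
    by_cases h1 : x ≤ B
    · left; exact ⟨by omega, h1⟩
    · right
      by_cases h2 : x < (d : ℤ) ^ k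
      · left; exact ⟨hx, by omega, h2⟩
      · right; exact ⟨hx, by omega, by omega⟩
  have h1 : ((Finset.Icc 1 B).card : ℝ) ≤ (B : ℝ) ^ (1 + kap d m) * ((d : ℝ) ^ k) ^ eta d m := by
    rw [Int.card_Icc]
    have : ((B + 1 - 1).toNat : ℝ) = B := by
      have h : ((B + 1 - 1).toNat : ℤ) = B := by omega
      exact_mod_cast h
    rw [this, hBpow]
    calc (B : ℝ) = B * 1 * 1 := by ring
      _ ≤ B * (B : ℝ) ^ kap d m * ((d : ℝ) ^ k) ^ eta d m := by
        apply mul_le_mul _ hone zero_le_one (by positivity)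
        exact mul_le_mul_of_nonneg_left hBk (by linarith)
  have hle : (B : ℝ) ^ kap d m ≤ (B : ℝ) ^ (1 + kap d m) :=
    Real.rpow_le_rpow_of_exponent_le hB1' (by linarith)
  have h2 : ((S.filter (fun x => B < x ∧ x < (d : ℤ) ^ k)).card : ℝ) ≤
      C₂ * (B : ℝ) ^ (1 + kap d m) * ((d : ℝ) ^ k) ^ eta d m := by
    refine (hC₂ r hr B hB1 hB k (S.filter (fun x => B < x ∧ x < (d : ℤ) ^ k)) (by
      intro x hx
      obtain ⟨hx1, hx2, hx3⟩ := Finset.mem_filter.mp hx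
      exact ⟨hE x hx1, hx2, hx3⟩)).trans ?_
    exact mul_le_mul_of_nonneg_right (mul_le_mul_of_nonneg_left hle hC₂0)
      (zero_le_one.trans hone)
  have h3 : ((S.filter (fun x => B < x ∧ (d : ℤ) ^ k ≤ x)).card : ℝ) ≤
      C₁ * (B : ℝ) ^ (1 + kap d m) * ((d : ℝ) ^ k) ^ eta d m := by
    refine (hC₁ r hr B hB1 hB k (S.filter (fun x => B < x ∧ (d : ℤ) ^ k ≤ x)) (by
      intro x hx y hy hxy
      exact hS x (Finset.mem_filter.mp hx).1 y (Finset.mem_filter.mp hy).1 hxy) (by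
      intro x hx
      obtain ⟨hx1, hx2, hx3⟩ := Finset.mem_filter.mp hx
      exact ⟨hE x hx1, hx2, hx3⟩)).trans ?_
    exact mul_le_mul_of_nonneg_right (mul_le_mul_of_nonneg_left hle hC₁0)
      (zero_le_one.trans hone)
  have h4 : (S.card : ℝ) ≤ (Finset.Icc 1 B).card +
      ((S.filter (fun x => B < x ∧ x < (d : ℤ) ^ k)).card +
      (S.filter (fun x => B < x ∧ (d : ℤ) ^ k ≤ x)).card) := by
    have h5 := Finset.card_le_card hsub
    have h6 := Finset.card_union_le (Finset.Icc 1 B)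
      (S.filter (fun x => B < x ∧ x < (d : ℤ) ^ k) ∪ S.filter (fun x => B < x ∧ (d : ℤ) ^ k ≤ x))
    have h7 := Finset.card_union_le (S.filter (fun x => B < x ∧ x < (d : ℤ) ^ k))
      (S.filter (fun x => B < x ∧ (d : ℤ) ^ k ≤ x))
    have h8 : S.card ≤ (Finset.Icc 1 B).card +
      ((S.filter (fun x => B < x ∧ x < (d : ℤ) ^ k)).card +
      (S.filter (fun x => B < x ∧ (d : ℤ) ^ k ≤ x)).card) := by omega
    exact_mod_cast h8
  calc (S.card : ℝ) ≤ _ := h4
    _ ≤ (B : ℝ) ^ (1 + kap d m) * ((d : ℝ) ^ k) ^ eta d m +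
        (C₂ * (B : ℝ) ^ (1 + kap d m) * ((d : ℝ) ^ k) ^ eta d m +
          C₁ * (B : ℝ) ^ (1 + kap d m) * ((d : ℝ) ^ k) ^ eta d m) :=
      add_le_add h1 (add_le_add h2 h3)
    _ = _ := by ring

/-- **Main bound** for one admissible `R`. -/
lemma main_bound (hd : 2 ≤ d) (hdm : d < m) (hco : Nat.Coprime m d)
    (hm : (m : ℝ) ≤ (d : ℝ) ^ ((d : ℝ) / ((d : ℝ) - 1))) (hr : Admissible d m r) :
    ∃ C : ℝ, 0 ≤ C ∧ ∀ (k : ℕ) (S : Finset ℤ),
      (∀ x ∈ S, ∀ y ∈ S, (d : ℤ) ^ k ∣ x - y → x = y) →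
      (∀ x ∈ S, x ∈ E d m r) →
      (S.card : ℝ) ≤ C * ((d : ℝ) ^ k) ^ eta d m := by
  obtain ⟨C, hC0, hC⟩ := main_bound_unif hd hdm hco hm
  obtain ⟨B, hB1, hB⟩ : ∃ B : ℤ, 1 ≤ B ∧ ∀ j : ℤ, 0 < j → j < (d : ℤ) → |r j| ≤ B := by
    refine ⟨1 + ∑ j ∈ Finset.Ioo (0 : ℤ) d, |r j|, ?_, fun j h1 h2 => ?_⟩
    · have : 0 ≤ ∑ j ∈ Finset.Ioo (0 : ℤ) d, |r j| := Finset.sum_nonneg (fun _ _ => abs_nonneg _)
      omega
    · have := Finset.single_le_sum (f := fun j => |r j|) (fun _ _ => abs_nonneg _)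
        (Finset.mem_Ioo.mpr ⟨h1, h2⟩)
      omega
  have hB1' : (1 : ℝ) ≤ B := by exact_mod_cast hB1
  exact ⟨C * (B : ℝ) ^ (1 + kap d m), by positivity, fun k S hS hE => hC r hr B hB1 hB k S hS hE⟩

/-- The number of residue classes modulo `d^k` met by `E`. -/
lemma residues (hd : 2 ≤ d) (hdm : d < m) (hco : Nat.Coprime m d)
    (hm : (m : ℝ) ≤ (d : ℝ) ^ ((d : ℝ) / ((d : ℝ) - 1))) (hr : Admissible d m r) :
    ∃ C : ℝ, 0 ≤ C ∧ ∀ k : ℕ,
      (((fun n : ℤ => (n : ZMod (d ^ k))) '' E d m r).ncard : ℝ) ≤ C * ((d : ℝ) ^ k) ^ eta d m := by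
  obtain ⟨C, hC0, hC⟩ := main_bound hd hdm hco hm hr
  refine ⟨C, hC0, fun k => ?_⟩
  have : NeZero (d ^ k) := ⟨pow_ne_zero _ (by omega)⟩
  set A := (fun n : ℤ => (n : ZMod (d ^ k))) '' E d m r with hA
  have hfin : A.Finite := Set.toFinite _
  have hex : ∀ a : ZMod (d ^ k), ∃ n : ℤ, a ∈ A → n ∈ E d m r ∧ (n : ZMod (d ^ k)) = a := by
    intro a
    by_cases ha : a ∈ A
    · obtain ⟨n, hn, hna⟩ := ha
      exact ⟨n, fun _ => ⟨hn, hna⟩⟩
    · exact ⟨0, fun h => absurd h ha⟩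
  choose g hg using hex
  have hginj : Set.InjOn g (hfin.toFinset : Set (ZMod (d ^ k))) := by
    intro a ha b hb hab
    have ha' := hg a (by simpa using ha)
    have hb' := hg b (by simpa using hb)
    rw [← ha'.2, ← hb'.2, hab]
  have h1 := hC k (hfin.toFinset.image g) (by
    intro x hx y hy hxy
    obtain ⟨a, ha, rfl⟩ := Finset.mem_image.mp hx
    obtain ⟨b, hb, rfl⟩ := Finset.mem_image.mp hy
    have ha' := hg a (by simpa using ha)
    have hb' := hg b (by simpa using hb)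
    have : ((g a : ℤ) : ZMod (d ^ k)) = ((g b : ℤ) : ZMod (d ^ k)) := by
      rw [ZMod.intCast_eq_intCast_iff_dvd_sub]
      push_cast
      rw [dvd_sub_comm]
      exact hxy
    rw [← ha'.2, ← hb'.2, this]) (by
    intro x hx
    obtain ⟨a, ha, rfl⟩ := Finset.mem_image.mp hx
    exact (hg a (by simpa using ha)).1)
  rw [Finset.card_image_of_injOn hginj] at h1
  rw [Set.ncard_eq_toFinset_card A hfin]
  exact h1

end Pool.Agent.Helper68.Moeller
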