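import Pool.Agent.Helper68.Moeller.Weier

/-!
Approximation of sequences with rapidly convergent Newton series by integer polynomials.
-/

namespace Pool.Agent.Helper68.Moeller

open Real Polynomial

variable {d m : ℕ} {r : ℤ → ℤ}

lemma factorial_dvd {d k i : ℕ} (hd : 2 ≤ d) (hi : i < k) {A K : ℕ}
    (hAK : Nat.factorial k = A * K)
    (hA : ∀ p : ℕ, p.Prime → p ∣ A → p ∣ d) {c : ℤ} (hc : (d : ℤ) ^ (2 * i) ∣ c) :
    ((Nat.factorial i : ℕ) : ℤ) ∣ (K : ℤ) * c := by
  rcases Nat.eq_zero_or_pos i with h0 | hpos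
  · subst h0
    simp
  obtain ⟨a, b, hab, hbd, haP, ha0, hb0⟩ := exists_coprime_part d (Nat.factorial i)
    (Nat.factorial_ne_zero i)
  have hbK : b ∣ K := by
    have h1 : b ∣ A * K := by
      rw [← hAK]
      exact (Dvd.intro_left a hab.symm).trans (Nat.factorial_dvd_factorial hi.le)
    have h2 : Nat.Coprime b A := by
      rw [Nat.coprime_iff_gcd_eq_one]
      by_contra hcon
      obtain ⟨p, hp, hpd⟩ := Nat.exists_prime_and_dvd hcon
      have h3 := hA p hp (hpd.trans (Nat.gcd_dvd_right _ _))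
      have h4 : p ∣ Nat.gcd b d := Nat.dvd_gcd (hpd.trans (Nat.gcd_dvd_left _ _)) h3
      rw [hbd] at h4
      exact hp.one_lt.ne' (Nat.dvd_one.mp h4)
    exact h2.dvd_of_dvd_mul_left h1
  have had : a ∣ d ^ i := by
    rw [← Nat.factorization_prime_le_iff_dvd ha0 (pow_ne_zero _ (by omega))]
    intro p hp
    by_cases hpa : p ∣ a
    · have hpd := haP p hp hpa
      have h1 : a.factorization p ≤ (Nat.factorial i).factorization p :=
        (Nat.factorization_prime_le_iff_dvd ha0 (Nat.factorial_ne_zero i)).mpr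
          (Dvd.intro b hab.symm) p hp
      have h2 := factorial_val hp hpos
      have h3 : i ≤ (d ^ i).factorization p := by
        rw [← hp.pow_dvd_iff_le_factorization (pow_ne_zero _ (by omega))]
        exact pow_dvd_pow_of_dvd hpd i
      omega
    · rw [Nat.factorization_eq_zero_of_not_dvd hpa]
      exact Nat.zero_le _
  have hac : (a : ℤ) ∣ c := by
    have h1 : (a : ℤ) ∣ (d : ℤ) ^ i := by exact_mod_cast had
    exact h1.trans ((pow_dvd_pow _ (by omega)).trans hc)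
  have hbK' : (b : ℤ) ∣ (K : ℤ) := by exact_mod_cast hbK
  rw [hab]
  push_cast
  rw [mul_comm (a : ℤ)]
  exact mul_dvd_mul hbK' hac

/-- The approximating polynomial. -/
lemma approx (hd : 2 ≤ d) (c : ℕ → ℤ) (hc : ∀ i, (d : ℤ) ^ (2 * i) ∣ c i) (k : ℕ) :
    ∃ (K : ℕ) (G : ℤ[X]), Nat.Coprime K d ∧
      (∀ s : ℕ, G.eval (s : ℤ) = K * ∑ i ∈ Finset.range k, (s.choose i : ℤ) * c i) ∧
      (∀ p : ℕ, p.Prime → p ∣ d → ∀ j, 1 ≤ j → (p : ℤ) ^ j ∣ G.coeff j) ∧
      (∀ p : ℕ, p.Prime → p ∣ d → ∀ V i₁ : ℕ, 1 ≤ i₁ → i₁ < k → ¬ (p : ℤ) ^ (V + 1) ∣ c i₁ →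
        ∃ Z, 1 ≤ Z ∧ ¬ (p : ℤ) ^ (V + 1) ∣ G.coeff Z) := by
  classical
  obtain ⟨A, K, hAK, hKd, hA, hA0, hK0⟩ := exists_coprime_part d (Nat.factorial k)
    (Nat.factorial_ne_zero k)
  have hex : ∀ i, ∃ b : ℤ, i < k → (K : ℤ) * c i = (Nat.factorial i : ℕ) * b := by
    intro i
    by_cases hi : i < k
    · obtain ⟨b, hb⟩ := factorial_dvd hd hi hAK hA (hc i)
      exact ⟨b, fun _ => hb⟩
    · exact ⟨0, fun h => absurd h hi⟩
  choose b hb using hex
  set G : ℤ[X] := ∑ i ∈ Finset.range k, C (b i) * descPochhammer ℤ i with hG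
  have hcoeff : ∀ j, G.coeff j = ∑ i ∈ Finset.range k, b i * (descPochhammer ℤ i).coeff j := by
    intro j
    rw [hG, finsetSum_coeff]
    apply Finset.sum_congr rfl
    intro i _
    rw [coeff_C_mul]
  have hpb : ∀ p : ℕ, p.Prime → p ∣ d → ∀ i, 1 ≤ i → i < k → (p : ℤ) ^ i ∣ b i := by
    intro p hp hpd i hi hik
    have h1 : (p : ℤ) ^ (2 * i) ∣ (Nat.factorial i : ℕ) * b i := by
      rw [← hb i hik]
      apply Dvd.dvd.mul_left
      refine (pow_dvd_pow_of_dvd ?_ _).trans (hc i)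
      exact_mod_cast hpd
    have h2 : ¬ (p : ℤ) ^ i ∣ ((Nat.factorial i : ℕ) : ℤ) := by
      intro h3
      have h4 : p ^ i ∣ Nat.factorial i := by exact_mod_cast h3
      have h5 := (hp.pow_dvd_iff_le_factorization (Nat.factorial_ne_zero i)).mp h4
      have h6 := factorial_val hp hi
      omega
    have h3 := pow_sub_dvd hp h1 h2
    rwa [show 2 * i - i = i by omega] at h3
  have hdegc : ∀ i j, i < j → (descPochhammer ℤ i).coeff j = 0 := by
    intro i j hij
    apply Polynomial.coeff_eq_zero_of_natDegree_lt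
    rw [descPochhammer_natDegree]
    exact hij
  refine ⟨K, G, hKd, ?_, ?_, ?_⟩
  · intro s
    rw [hG, Polynomial.eval_finsetSum, Finset.mul_sum]
    apply Finset.sum_congr rfl
    intro i hi
    rw [Finset.mem_range] at hi
    rw [eval_mul, eval_C, descPochhammer_eval_eq_descFactorial,
      Nat.descFactorial_eq_factorial_mul_choose]
    have h1 := hb i hi
    push_cast at h1 ⊢
    linear_combination (-(s.choose i : ℤ)) * h1
  · intro p hp hpd j hj
    rw [hcoeff]
    apply Finset.dvd_sum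
    intro i hi
    rw [Finset.mem_range] at hi
    by_cases hij : i < j
    · rw [hdegc i j hij, mul_zero]
      exact dvd_zero _
    · exact Dvd.dvd.mul_right ((pow_dvd_pow _ (by omega)).trans (hpb p hp hpd i (by omega) hi)) _
  · intro p hp hpd V i₁ hi₁ hi₁k hci₁
    set S := (Finset.range k).filter (fun i => 1 ≤ i ∧ ¬ (p : ℤ) ^ (V + 1) ∣ b i) with hS
    have hne : S.Nonempty := by
      refine ⟨i₁, ?_⟩
      rw [hS, Finset.mem_filter, Finset.mem_range]
      refine ⟨hi₁k, hi₁, ?_⟩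
      intro hdvd
      apply hci₁
      have h1 : (p : ℤ) ^ (V + 1) ∣ (K : ℤ) * c i₁ := by
        rw [hb i₁ hi₁k]
        exact Dvd.dvd.mul_left hdvd _
      have h2 : IsCoprime ((p : ℤ) ^ (V + 1)) (K : ℤ) := by
        apply IsCoprime.pow_left
        apply Nat.isCoprime_iff_coprime.mpr
        exact (Nat.Coprime.coprime_dvd_right hpd hKd).symm
      exact h2.dvd_of_dvd_mul_left h1
    refine ⟨S.max' hne, ?_, ?_⟩
    · exact (Finset.mem_filter.mp (S.max'_mem hne)).2.1
    · set Z := S.max' hne with hZ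
      obtain ⟨hZ1, hZ2, hZ3⟩ := Finset.mem_filter.mp (S.max'_mem hne)
      intro hdvd
      apply hZ3
      rw [hcoeff, ← Finset.sum_erase_add _ _ hZ1] at hdvd
      have h1 : (descPochhammer ℤ Z).coeff Z = 1 := by
        have h2 := monic_descPochhammer ℤ Z
        rw [Polynomial.Monic, Polynomial.leadingCoeff, descPochhammer_natDegree] at h2
        exact h2
      rw [← hZ, h1, mul_one] at hdvd
      refine (dvd_add_right ?_).mp hdvd
      apply Finset.dvd_sum
      intro i hi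
      rw [Finset.mem_erase, Finset.mem_range] at hi
      rcases lt_or_gt_of_ne hi.1 with h2 | h2
      · rw [hdegc i Z h2, mul_zero]
        exact dvd_zero _
      · apply Dvd.dvd.mul_right
        by_contra hcon
        have h3 : i ∈ S := by
          rw [hS, Finset.mem_filter, Finset.mem_range]
          exact ⟨hi.2, by omega, hcon⟩
        have := S.le_max' i h3
        omega

/-- Consequences for the derivative: a uniformly bounded Weierstrass degree. -/
lemma approx_deriv {p : ℕ} (hp : p.Prime) {G : ℤ[X]} {V : ℕ}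
    (h1 : ∀ j, 1 ≤ j → (p : ℤ) ^ j ∣ G.coeff j)
    (h2 : ∃ Z, 1 ≤ Z ∧ ¬ (p : ℤ) ^ (V + 1) ∣ G.coeff Z) :
    ∃ Z, Z ≤ 2 * V ∧ ¬ (p : ℤ) ^ (2 * V + 1) ∣ G.derivative.coeff Z ∧
      ∀ j, Z < j → (p : ℤ) ^ (2 * V + 1) ∣ G.derivative.coeff j := by
  classical
  obtain ⟨Z, hZ1, hZ2⟩ := h2
  have hZV : Z ≤ V := by
    by_contra hcon
    exact hZ2 ((pow_dvd_pow _ (by omega)).trans (h1 Z hZ1))
  have hbig : ∀ j, 2 * V ≤ j → (p : ℤ) ^ (2 * V + 1) ∣ G.derivative.coeff j := by
    intro j hj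
    rw [coeff_derivative]
    exact Dvd.dvd.mul_right ((pow_dvd_pow _ (by omega)).trans (h1 (j + 1) (by omega))) _
  have hP : ¬ (p : ℤ) ^ (2 * V + 1) ∣ G.derivative.coeff (Z - 1) := by
    intro hdvd
    rw [coeff_derivative, Nat.sub_add_cancel hZ1] at hdvd
    have e : (((Z - 1 : ℕ) : ℤ) + 1) = (Z : ℤ) := by omega
    rw [e, mul_comm (G.coeff Z)] at hdvd
    have h3 : ¬ (p : ℤ) ^ V ∣ (Z : ℤ) := by
      intro h4
      have h5 : p ^ V ∣ Z := by exact_mod_cast h4
      have h6 := Nat.le_of_dvd (by omega) h5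
      have h7 : V < p ^ V := Nat.lt_pow_self hp.one_lt
      omega
    have h4 := pow_sub_dvd hp hdvd h3
    rw [show 2 * V + 1 - V = V + 1 by omega] at h4
    exact hZ2 h4
  refine ⟨Nat.findGreatest (fun j => ¬ (p : ℤ) ^ (2 * V + 1) ∣ G.derivative.coeff j) (2 * V),
    Nat.findGreatest_le _, ?_, ?_⟩
  · exact Nat.findGreatest_spec
      (P := fun j => ¬ (p : ℤ) ^ (2 * V + 1) ∣ G.derivative.coeff j) (by omega : Z - 1 ≤ 2 * V) hP
  · intro j hj
    by_cases hj2 : j ≤ 2 * V
    · exact not_not.mp (Nat.findGreatest_is_greatest hj hj2)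
    · exact hbig j (by omega)

end Pool.Agent.Helper68.Moeller
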