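import Mathlib

/-!
Basic facts on Möller's generalized Hasse-Syracuse maps.
-/

namespace Pool.Agent.Helper68.Moeller

/-- The map `H(x) = (m x - r_j) / d^a`, `j = x mod d`, where `d^a` is the largest power of `d`
dividing `m x - r_j`. -/
noncomputable def H (d m : ℕ) (r : ℤ → ℤ) (x : ℤ) : ℤ :=
  ((m : ℤ) * x - r (x % (d : ℤ))) /
    (d : ℤ) ^ (multiplicity (d : ℤ) ((m : ℤ) * x - r (x % (d : ℤ))))

/-- `R = {r_1, …, r_{d-1}}` is admissible: `r_j ≡ m j (mod d)` for `1 ≤ j ≤ d - 1`. -/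
def Admissible (d m : ℕ) (r : ℤ → ℤ) : Prop :=
  ∀ j : ℤ, 0 < j → j < (d : ℤ) → r j ≡ (m : ℤ) * j [ZMOD (d : ℤ)]

/-- The exceptional set `E(d, m, R)`: the positive integers `n`, not divisible by `d`, with
`H^(k)(n) ≥ n` for every `k` for which `H^(k)(n)` is defined; the orbit stops at a point `y` with
`m y ≤ r_j`, `j = y mod d`. -/
def E (d m : ℕ) (r : ℤ → ℤ) : Set ℤ :=
  {n | 0 < n ∧ ¬ (d : ℤ) ∣ n ∧
    ∀ k : ℕ, (∀ i < k, r ((H d m r)^[i] n % (d : ℤ)) < (m : ℤ) * (H d m r)^[i] n) →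
      n ≤ (H d m r)^[k] n}

/-- The map `T`. -/
def T (d m : ℕ) (r : ℤ → ℤ) (x : ℤ) : ℤ :=
  if (d : ℤ) ∣ x then x / d else (m * x - r (x % d)) / d

/-- number of non-zero residues among the first `k` points of the `T`-orbit of `x`. -/
def cnt (d m : ℕ) (r : ℤ → ℤ) : ℕ → ℤ → ℕ
  | 0, _ => 0
  | k + 1, x => (if (d : ℤ) ∣ x then 0 else 1) + cnt d m r k (T d m r x)

variable {d m : ℕ} {r : ℤ → ℤ}

lemma emod_pos (hd : 2 ≤ d) {x : ℤ} (hx : ¬ (d : ℤ) ∣ x) : 0 < x % (d : ℤ) ∧ x % (d : ℤ) < d := by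
  have hd0 : (0 : ℤ) < d := by omega
  refine ⟨?_, Int.emod_lt_of_pos _ hd0⟩
  rcases (Int.emod_nonneg x hd0.ne').lt_or_eq with h | h
  · exact h
  · exact absurd (Int.dvd_of_emod_eq_zero h.symm) hx

lemma dvd_sub (hr : Admissible d m r) (hd : 2 ≤ d) {x : ℤ} (hx : ¬ (d : ℤ) ∣ x) :
    (d : ℤ) ∣ m * x - r (x % d) := by
  obtain ⟨h1, h2⟩ := emod_pos hd hx
  have h3 := hr _ h1 h2
  have h4 : (m : ℤ) * (x % d) ≡ m * x [ZMOD d] := Int.ModEq.mul_left _ (Int.mod_modEq _ _)
  exact (h3.trans h4).dvd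

lemma d_mul_T_of_dvd {x : ℤ} (hx : (d : ℤ) ∣ x) : (d : ℤ) * T d m r x = x := by
  rw [T, if_pos hx]; exact Int.mul_ediv_cancel' hx

lemma d_mul_T_of_not_dvd (hr : Admissible d m r) (hd : 2 ≤ d) {x : ℤ} (hx : ¬ (d : ℤ) ∣ x) :
    (d : ℤ) * T d m r x = m * x - r (x % d) := by
  rw [T, if_neg hx]; exact Int.mul_ediv_cancel' (dvd_sub hr hd hx)

/-- congruence lifting. -/
lemma sep (hr : Admissible d m r) (hd : 2 ≤ d) (hco : Nat.Coprime m d) {x y : ℤ} {k : ℕ}
    (hxy : x % (d : ℤ) = y % (d : ℤ)) (h : (d : ℤ) ^ k ∣ T d m r x - T d m r y) :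
    (d : ℤ) ^ (k + 1) ∣ x - y := by
  have hd0 : (d : ℤ) ≠ 0 := by positivity
  have h1 : (d : ℤ) ^ (k + 1) ∣ d * T d m r x - d * T d m r y := by
    rw [← mul_sub, pow_succ']
    exact mul_dvd_mul_left _ h
  by_cases hx : (d : ℤ) ∣ x
  · have hy : (d : ℤ) ∣ y := by
      apply Int.dvd_of_emod_eq_zero
      rw [← hxy]
      exact Int.emod_eq_zero_of_dvd hx
    rw [d_mul_T_of_dvd hx, d_mul_T_of_dvd hy] at h1
    exact h1
  · have hy : ¬ (d : ℤ) ∣ y := by
      intro hy
      apply hx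
      apply Int.dvd_of_emod_eq_zero
      rw [hxy]
      exact Int.emod_eq_zero_of_dvd hy
    rw [d_mul_T_of_not_dvd hr hd hx, d_mul_T_of_not_dvd hr hd hy, hxy] at h1
    have h2 : (m : ℤ) * x - r (y % d) - (m * y - r (y % d)) = m * (x - y) := by ring
    rw [h2] at h1
    have h3 : IsCoprime ((d : ℤ) ^ (k + 1)) (m : ℤ) := by
      apply IsCoprime.pow_left
      exact (Nat.isCoprime_iff_coprime.mpr hco).symm
    exact h3.dvd_of_dvd_mul_left h1

/-- The main counting estimate. -/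
lemma sum_le (hr : Admissible d m r) (hd : 2 ≤ d) (hco : Nat.Coprime m d) {z : ℝ} (hz : 0 ≤ z)
    (k : ℕ) : ∀ S : Finset ℤ, (∀ x ∈ S, ∀ y ∈ S, (d : ℤ) ^ k ∣ x - y → x = y) →
      ∑ x ∈ S, z ^ cnt d m r k x ≤ (1 + ((d : ℝ) - 1) * z) ^ k := by
  induction k with
  | zero =>
    intro S hS
    have hc : S.card ≤ 1 := by
      rw [Finset.card_le_one]
      intro a ha b hb
      exact hS a ha b hb (by simp)
    simp only [cnt, pow_zero, Finset.sum_const, nsmul_eq_mul, mul_one]
    exact_mod_cast hc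
  | succ k ih =>
    intro S hS
    have hd0 : (0 : ℤ) < d := by omega
    have hmaps : ∀ x ∈ S, (x % (d : ℤ)).toNat ∈ Finset.range d := by
      intro x _
      rw [Finset.mem_range]
      have h1 := Int.emod_nonneg x hd0.ne'
      have h2 := Int.emod_lt_of_pos x hd0
      omega
    rw [← Finset.sum_fiberwise_of_maps_to hmaps]
    have hj : ∀ j ∈ Finset.range d,
        ∑ x ∈ S with (x % (d : ℤ)).toNat = j, z ^ cnt d m r (k + 1) x ≤
          (if j = 0 then 1 else z) * (1 + ((d : ℝ) - 1) * z) ^ k := by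
      intro j _
      have hmod : ∀ x ∈ S.filter (fun x => (x % (d : ℤ)).toNat = j), x % (d : ℤ) = j := by
        intro x hx
        have h1 := Int.emod_nonneg x hd0.ne'
        have h2 := (Finset.mem_filter.mp hx).2
        omega
      have h1 : ∀ x ∈ S.filter (fun x => (x % (d : ℤ)).toNat = j),
          z ^ cnt d m r (k + 1) x =
            (if j = 0 then 1 else z) * z ^ cnt d m r k (T d m r x) := by
        intro x hx
        have h2 := hmod x hx
        rw [cnt]
        by_cases hj0 : j = 0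
        · have : (d : ℤ) ∣ x := by
            apply Int.dvd_of_emod_eq_zero
            rw [h2, hj0]; rfl
          rw [if_pos this, if_pos hj0, zero_add, one_mul]
        · have : ¬ (d : ℤ) ∣ x := by
            intro h
            have := Int.emod_eq_zero_of_dvd h
            omega
          rw [if_neg this, if_neg hj0, pow_add, pow_one]
      rw [Finset.sum_congr rfl h1, ← Finset.mul_sum]
      apply mul_le_mul_of_nonneg_left _ (by split_ifs <;> linarith)
      have hinj : Set.InjOn (T d m r) (S.filter (fun x => (x % (d : ℤ)).toNat = j) : Finset ℤ) := by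
        intro x hx y hy hxy
        apply hS x (Finset.mem_filter.mp hx).1 y (Finset.mem_filter.mp hy).1
        apply sep hr hd hco
        · rw [hmod x hx, hmod y hy]
        · rw [hxy, sub_self]; exact dvd_zero _
      rw [← Finset.sum_image (g := T d m r) (f := fun y => z ^ cnt d m r k y) hinj]
      apply ih
      intro a ha b hb hab
      obtain ⟨x, hx, rfl⟩ := Finset.mem_image.mp ha
      obtain ⟨y, hy, rfl⟩ := Finset.mem_image.mp hb
      congr 1
      apply hS x (Finset.mem_filter.mp hx).1 y (Finset.mem_filter.mp hy).1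
      apply sep hr hd hco
      · rw [hmod x hx, hmod y hy]
      · exact hab
    refine (Finset.sum_le_sum hj).trans ?_
    rw [← Finset.sum_mul, pow_succ', ]
    apply mul_le_mul_of_nonneg_right _ (by
      apply pow_nonneg
      have : (2 : ℝ) ≤ d := by exact_mod_cast hd
      nlinarith)
    obtain ⟨d', rfl⟩ : ∃ d', d = d' + 1 := ⟨d - 1, by omega⟩
    rw [Finset.sum_range_succ']
    simp
    linarith

/-- the affine estimate -/
lemma affine (hr : Admissible d m r) (hd : 2 ≤ d) (hdm : d < m) {B : ℤ}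
    (hB : ∀ j : ℤ, 0 < j → j < (d : ℤ) → |r j| ≤ B) (k : ℕ) : ∀ x : ℤ,
      |(d : ℤ) ^ k * (T d m r)^[k] x - (m : ℤ) ^ cnt d m r k x * x| ≤
        B * ((m : ℤ) ^ k - (d : ℤ) ^ k) := by
  have hB0 : 0 ≤ B := (abs_nonneg _).trans (hB 1 one_pos (by omega))
  induction k with
  | zero => intro x; simp [cnt]
  | succ k ih =>
    intro x
    rw [Function.iterate_succ_apply]
    have hk := ih (T d m r x)
    have hmd : (d : ℤ) + 1 ≤ m := by omega
    have hmk : (0 : ℤ) ≤ (m : ℤ) ^ k := by positivity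
    have hdk : (0 : ℤ) ≤ (d : ℤ) ^ k := by positivity
    have hd0 : (0 : ℤ) ≤ (d : ℤ) := by positivity
    have hdm' : (d : ℤ) ^ k ≤ (m : ℤ) ^ k := pow_le_pow_left₀ hd0 (by omega) k
    have hc : ∀ k x, cnt d m r k x ≤ k := by
      intro k
      induction k with
      | zero => intro x; simp [cnt]
      | succ k ih =>
        intro x
        rw [cnt]
        have := ih (T d m r x)
        split_ifs <;> omega
    by_cases hx : (d : ℤ) ∣ x
    · have e1 : cnt d m r (k + 1) x = cnt d m r k (T d m r x) := by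
        rw [cnt, if_pos hx, zero_add]
      rw [e1]
      have e2 : (d : ℤ) ^ (k + 1) * (T d m r)^[k] (T d m r x) - (m : ℤ) ^ cnt d m r k (T d m r x) * x
          = d * ((d : ℤ) ^ k * (T d m r)^[k] (T d m r x) -
            (m : ℤ) ^ cnt d m r k (T d m r x) * T d m r x) := by
        have := d_mul_T_of_dvd (m := m) (r := r) hx
        rw [mul_sub]
        nth_rewrite 3 [← this]
        ring
      rw [e2, abs_mul, abs_of_nonneg hd0]
      calc (d : ℤ) * |(d : ℤ) ^ k * (T d m r)^[k] (T d m r x) -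
            (m : ℤ) ^ cnt d m r k (T d m r x) * T d m r x|
          ≤ d * (B * ((m : ℤ) ^ k - (d : ℤ) ^ k)) := mul_le_mul_of_nonneg_left hk hd0
        _ ≤ B * ((m : ℤ) ^ (k + 1) - (d : ℤ) ^ (k + 1)) := by
          rw [pow_succ, pow_succ]
          have h1 : (d : ℤ) * ((m : ℤ) ^ k) ≤ m ^ k * m := by
            rw [mul_comm]; exact mul_le_mul_of_nonneg_left (by omega) hmk
          have h2 : (d : ℤ) * (B * ((m : ℤ) ^ k - (d : ℤ) ^ k)) =
            B * (d * (m : ℤ) ^ k - d ^ k * d) := by ring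
          rw [h2]
          exact mul_le_mul_of_nonneg_left (by linarith) hB0
    · have e1 : cnt d m r (k + 1) x = cnt d m r k (T d m r x) + 1 := by
        rw [cnt, if_neg hx, add_comm]
      rw [e1]
      have e2 : (d : ℤ) ^ (k + 1) * (T d m r)^[k] (T d m r x) -
          (m : ℤ) ^ (cnt d m r k (T d m r x) + 1) * x
          = d * ((d : ℤ) ^ k * (T d m r)^[k] (T d m r x) -
            (m : ℤ) ^ cnt d m r k (T d m r x) * T d m r x) -
              (m : ℤ) ^ cnt d m r k (T d m r x) * r (x % d) := by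
        have := d_mul_T_of_not_dvd hr hd hx
        have h3 : r (x % d) = m * x - d * T d m r x := by linarith
        rw [h3]
        ring
      rw [e2]
      obtain ⟨hp1, hp2⟩ := emod_pos hd hx
      have hrB := hB _ hp1 hp2
      have hmc : (m : ℤ) ^ cnt d m r k (T d m r x) ≤ (m : ℤ) ^ k :=
        pow_le_pow_right₀ (by omega) (hc k _)
      calc |(d : ℤ) * ((d : ℤ) ^ k * (T d m r)^[k] (T d m r x) -
            (m : ℤ) ^ cnt d m r k (T d m r x) * T d m r x) -
              (m : ℤ) ^ cnt d m r k (T d m r x) * r (x % d)|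
          ≤ |(d : ℤ) * ((d : ℤ) ^ k * (T d m r)^[k] (T d m r x) -
            (m : ℤ) ^ cnt d m r k (T d m r x) * T d m r x)| +
              |(m : ℤ) ^ cnt d m r k (T d m r x) * r (x % d)| := abs_sub _ _
        _ = d * |((d : ℤ) ^ k * (T d m r)^[k] (T d m r x) -
            (m : ℤ) ^ cnt d m r k (T d m r x) * T d m r x)| +
              (m : ℤ) ^ cnt d m r k (T d m r x) * |r (x % d)| := by
            rw [abs_mul, abs_mul, abs_of_nonneg hd0, abs_of_nonneg (by positivity :
              (0 : ℤ) ≤ (m : ℤ) ^ cnt d m r k (T d m r x))]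
        _ ≤ d * (B * ((m : ℤ) ^ k - (d : ℤ) ^ k)) + (m : ℤ) ^ k * B := by
            apply add_le_add (mul_le_mul_of_nonneg_left hk hd0)
            exact mul_le_mul hmc hrB (abs_nonneg _) hmk
        _ = B * ((d + 1) * (m : ℤ) ^ k - d ^ k * d) := by ring
        _ ≤ B * ((m : ℤ) ^ (k + 1) - (d : ℤ) ^ (k + 1)) := by
          rw [pow_succ, pow_succ]
          apply mul_le_mul_of_nonneg_left _ hB0
          have : ((d : ℤ) + 1) * m ^ k ≤ m * m ^ k := mul_le_mul_of_nonneg_right hmd hmk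
          linarith

/-- properties of `H` -/
lemma H_spec (hr : Admissible d m r) (hd : 2 ≤ d) {x : ℤ} (hx : ¬ (d : ℤ) ∣ x)
    (hpos : r (x % (d : ℤ)) < (m : ℤ) * x) :
    ¬ (d : ℤ) ∣ H d m r x ∧ ∃ c : ℕ, T d m r x = (d : ℤ) ^ c * H d m r x := by
  set w := (m : ℤ) * x - r (x % (d : ℤ)) with hw
  have hw0 : w ≠ 0 := by omega
  have hfin : FiniteMultiplicity (d : ℤ) w := by
    rw [Int.finiteMultiplicity_iff]
    refine ⟨?_, hw0⟩
    rw [Int.natAbs_natCast]
    omega
  obtain ⟨c, hc1, hc2⟩ := hfin.exists_eq_pow_mul_and_not_dvd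
  have hd0 : (d : ℤ) ≠ 0 := by omega
  have hH : H d m r x = c := by
    unfold H
    rw [← hw]
    nth_rewrite 1 [hc1]
    exact Int.mul_ediv_cancel_left _ (pow_ne_zero _ hd0)
  rw [hH]
  refine ⟨hc2, multiplicity (d : ℤ) w - 1, ?_⟩
  have hv : 1 ≤ multiplicity (d : ℤ) w := by
    apply Nat.one_le_iff_ne_zero.mpr
    intro h0
    have := dvd_sub hr hd hx
    rw [← hw] at this
    rw [h0, pow_zero, one_mul] at hc1
    exact hc2 (hc1 ▸ this)
  have h1 := d_mul_T_of_not_dvd hr hd hx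
  rw [← hw] at h1
  apply mul_left_cancel₀ hd0
  rw [h1, ← mul_assoc, ← pow_succ', Nat.sub_add_cancel hv]
  exact hc1

/-- elements of `E` stay above themselves under `T`. -/
lemma E_T (hr : Admissible d m r) (hd : 2 ≤ d) (hm : 1 ≤ m) {B : ℤ}
    (hB : ∀ j : ℤ, 0 < j → j < (d : ℤ) → |r j| ≤ B) {n : ℤ} (hn : n ∈ E d m r) (hnB : B < n)
    (k : ℕ) : n ≤ (T d m r)^[k] n := by
  obtain ⟨h0, h1, h2⟩ := hn
  have hB0 : 0 ≤ B := (abs_nonneg _).trans (hB 1 one_pos (by omega))
  have hP : ∀ k, (∀ i < k, r ((H d m r)^[i] n % (d : ℤ)) < (m : ℤ) * (H d m r)^[i] n) ∧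
      n ≤ (H d m r)^[k] n ∧ ¬ (d : ℤ) ∣ (H d m r)^[k] n := by
    intro k
    induction k with
    | zero => exact ⟨by simp, le_refl _, h1⟩
    | succ k ih =>
      obtain ⟨ih1, ih2, ih3⟩ := ih
      have hdef : r ((H d m r)^[k] n % (d : ℤ)) < (m : ℤ) * (H d m r)^[k] n := by
        obtain ⟨hp1, hp2⟩ := emod_pos hd ih3
        have h3 := (le_abs_self _).trans (hB _ hp1 hp2)
        have h4 : (H d m r)^[k] n ≤ (m : ℤ) * (H d m r)^[k] n := by
          have : (1 : ℤ) ≤ m := by exact_mod_cast hm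
          nlinarith
        linarith
      have hdef' : ∀ i < k + 1, r ((H d m r)^[i] n % (d : ℤ)) < (m : ℤ) * (H d m r)^[i] n := by
        intro i hi
        rcases Nat.lt_succ_iff_lt_or_eq.mp hi with h | h
        · exact ih1 i h
        · rw [h]; exact hdef
      refine ⟨hdef', h2 _ hdef', ?_⟩
      rw [Function.iterate_succ_apply']
      exact (H_spec hr hd ih3 hdef).1
  have hT : ∀ i, ∃ c k : ℕ, (T d m r)^[i] n = (d : ℤ) ^ c * (H d m r)^[k] n := by
    intro i
    induction i with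
    | zero => exact ⟨0, 0, by simp⟩
    | succ i ih =>
      obtain ⟨c, k, hck⟩ := ih
      rw [Function.iterate_succ_apply', hck]
      obtain ⟨_, _, p3⟩ := hP k
      rcases Nat.eq_zero_or_pos c with hc | hc
      · subst hc
        rw [pow_zero, one_mul]
        have hdef := (hP (k + 1)).1 k (Nat.lt_succ_self k)
        obtain ⟨c', hc'⟩ := (H_spec hr hd p3 hdef).2
        exact ⟨c', k + 1, by rw [hc', Function.iterate_succ_apply']⟩
      · refine ⟨c - 1, k, ?_⟩
        have hd0 : (d : ℤ) ≠ 0 := by omega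
        apply mul_left_cancel₀ hd0
        rw [d_mul_T_of_dvd (Dvd.dvd.mul_right (dvd_pow_self _ (by omega)) _), ← mul_assoc,
          ← pow_succ', Nat.sub_add_cancel hc]
  obtain ⟨c, k', hck⟩ := hT k
  rw [hck]
  have h3 := (hP k').2.1
  have h4 : (1 : ℤ) ≤ (d : ℤ) ^ c := one_le_pow₀ (by omega)
  nlinarith

end Pool.Agent.Helper68.Moeller
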