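import Pool.Agent.Helper68.Moeller.Approx

/-!
The exceptional set along linear recurrences.
-/

namespace Pool.Agent.Helper68.Moeller

open Real Polynomial

variable {d m : ℕ} {r : ℤ → ℤ}

/-- optimisation of the parameter `w` -/
lemma choose_w (hd : 2 ≤ d) {η : ℝ} (heta0 : 0 < η) (heta1 : η < 1) (b : ℕ) :
    ∃ δ : ℝ, 0 < δ ∧ δ < 1 ∧ ∀ (a : ℕ) (C e : ℝ), 0 ≤ C → 0 ≤ e → ∀ (k : ℕ) (x : ℝ),
      (∀ w ≤ k, x ≤ (d : ℝ) ^ (2 * (a + b * w)) * (C * ((d : ℝ) ^ k) ^ η) +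
        e * ((d : ℝ) ^ k / 2 ^ w)) →
      x ≤ ((d : ℝ) ^ (2 * a) * C + 2 * e) * ((d : ℝ) ^ k) ^ (1 - δ) := by
  have hlogd := log_d_pos hd
  have hd' : (2 : ℝ) ≤ d := by exact_mod_cast hd
  set ε := (1 - η) / (4 * (b + 1)) with hε
  have hb0 : (0 : ℝ) ≤ b := Nat.cast_nonneg b
  have hε0 : 0 < ε := by rw [hε]; apply div_pos <;> linarith
  have hε1 : ε < 1 := by
    rw [hε, div_lt_one (by linarith)]
    linarith
  set δ := min ((1 - η) / 2) (ε * (Real.log 2 / Real.log d)) with hδ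
  have hlog2 : 0 < Real.log 2 := Real.log_pos (by norm_num)
  have hδ0 : 0 < δ := by
    rw [hδ]
    apply lt_min (by linarith)
    positivity
  have hδ1 : δ ≤ (1 - η) / 2 := min_le_left _ _
  have hδ2 : δ ≤ ε * (Real.log 2 / Real.log d) := min_le_right _ _
  refine ⟨δ, hδ0, by linarith, ?_⟩
  intro a C e hC0 he0 k x hx
  set w := ⌊ε * k⌋₊ with hw
  have hwle : (w : ℝ) ≤ ε * k := Nat.floor_le (by positivity)
  have hwlt : ε * k < w + 1 := Nat.lt_floor_add_one _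
  have hwk : w ≤ k := by
    have h1 : (w : ℝ) ≤ k := hwle.trans (by nlinarith [Nat.cast_nonneg (α := ℝ) k])
    exact_mod_cast h1
  have hstep := hx w hwk
  have hQ0 : (0 : ℝ) < (d : ℝ) ^ k := by positivity
  have hQ1 : (1 : ℝ) ≤ (d : ℝ) ^ k := one_le_pow₀ (by linarith)
  -- first term
  have ht1 : (d : ℝ) ^ (2 * (a + b * w)) * (C * ((d : ℝ) ^ k) ^ η) ≤
      (d : ℝ) ^ (2 * a) * C * ((d : ℝ) ^ k) ^ (1 - δ) := by
    have e1 : (d : ℝ) ^ (2 * (a + b * w)) =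
        (d : ℝ) ^ (2 * a) * (d : ℝ) ^ (2 * (b * w)) := by
      rw [← pow_add]; congr 1; ring
    have h2 : (d : ℝ) ^ (2 * (b * w)) ≤ ((d : ℝ) ^ k) ^ ((1 - η) / 2) := by
      rw [← Real.rpow_natCast (d : ℝ) k, ← Real.rpow_mul (by linarith), ← Real.rpow_natCast]
      apply Real.rpow_le_rpow_of_exponent_le (by linarith)
      push_cast
      have h3 : (b : ℝ) * w ≤ (b + 1) * (ε * k) := by
        apply mul_le_mul (by linarith) hwle (Nat.cast_nonneg _) (by linarith)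
      have h4 : ((b : ℝ) + 1) * (ε * k) = (1 - η) / 4 * k := by
        rw [hε]; field_simp
      rw [h4] at h3
      linarith
    calc (d : ℝ) ^ (2 * (a + b * w)) * (C * ((d : ℝ) ^ k) ^ η)
        = (d : ℝ) ^ (2 * a) * C * ((d : ℝ) ^ (2 * (b * w)) * ((d : ℝ) ^ k) ^ η) := by
          rw [e1]; ring
      _ ≤ (d : ℝ) ^ (2 * a) * C * (((d : ℝ) ^ k) ^ ((1 - η) / 2) * ((d : ℝ) ^ k) ^ η) := by
          apply mul_le_mul_of_nonneg_left _ (by positivity)
          exact mul_le_mul_of_nonneg_right h2 (by positivity)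
      _ = (d : ℝ) ^ (2 * a) * C * ((d : ℝ) ^ k) ^ ((1 - η) / 2 + η) := by
          rw [Real.rpow_add hQ0]
      _ ≤ (d : ℝ) ^ (2 * a) * C * ((d : ℝ) ^ k) ^ (1 - δ) := by
          apply mul_le_mul_of_nonneg_left _ (by positivity)
          apply Real.rpow_le_rpow_of_exponent_le hQ1
          linarith
  -- second term
  have ht2 : e * ((d : ℝ) ^ k / 2 ^ w) ≤ 2 * e * ((d : ℝ) ^ k) ^ (1 - δ) := by
    have h2 : ((d : ℝ) ^ k / 2 ^ w) ≤ 2 * ((d : ℝ) ^ k) ^ (1 - δ) := by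
      rw [div_le_iff₀ (by positivity)]
      have h3 : ((d : ℝ) ^ k) = ((d : ℝ) ^ k) ^ (1 - δ) * ((d : ℝ) ^ k) ^ δ := by
        rw [← Real.rpow_add hQ0]
        simp
      have h4 : ((d : ℝ) ^ k) ^ δ ≤ 2 * 2 ^ w := by
        have h5 : ((d : ℝ) ^ k) ^ δ ≤ (2 : ℝ) ^ (ε * k) := by
          rw [← Real.rpow_natCast (d : ℝ) k, ← Real.rpow_mul (by linarith),
            Real.rpow_def_of_pos (by linarith), Real.rpow_def_of_pos (by norm_num)]
          apply Real.exp_le_exp.mpr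
          have h6 : δ * Real.log d ≤ ε * Real.log 2 := by
            have := mul_le_mul_of_nonneg_right hδ2 hlogd.le
            rwa [mul_assoc, div_mul_cancel₀ _ hlogd.ne'] at this
          have h7 := mul_le_mul_of_nonneg_right h6 (Nat.cast_nonneg (α := ℝ) k)
          linarith
        have h6 : (2 : ℝ) ^ (ε * k) ≤ (2 : ℝ) ^ ((w : ℝ) + 1) :=
          Real.rpow_le_rpow_of_exponent_le (by norm_num) hwlt.le
        have h7 : (2 : ℝ) ^ ((w : ℝ) + 1) = 2 * 2 ^ w := by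
          rw [Real.rpow_add (by norm_num), Real.rpow_one, Real.rpow_natCast]; ring
        linarith
      calc ((d : ℝ) ^ k) = ((d : ℝ) ^ k) ^ (1 - δ) * ((d : ℝ) ^ k) ^ δ := h3
        _ ≤ ((d : ℝ) ^ k) ^ (1 - δ) * (2 * 2 ^ w) :=
          mul_le_mul_of_nonneg_left h4 (by positivity)
        _ = _ := by ring
    calc e * ((d : ℝ) ^ k / 2 ^ w) ≤ e * (2 * ((d : ℝ) ^ k) ^ (1 - δ)) :=
          mul_le_mul_of_nonneg_left h2 he0
      _ = _ := by ring
  calc x ≤ _ := hstep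
    _ ≤ (d : ℝ) ^ (2 * a) * C * ((d : ℝ) ^ k) ^ (1 - δ) +
        2 * e * ((d : ℝ) ^ k) ^ (1 - δ) := add_le_add ht1 ht2
    _ = _ := by ring

open Classical in
/-- one scale -/
lemma class_step (hd : 2 ≤ d) {C : ℝ}
    (hC : ∀ k : ℕ, (((fun n : ℤ => (n : ZMod (d ^ k))) '' E d m r).ncard : ℝ) ≤
      C * ((d : ℝ) ^ k) ^ eta d m) (F c : ℕ → ℤ) (hc : ∀ i, (d : ℤ) ^ (2 * i) ∣ c i)
    (hF : ∀ s, F s = ∑ i ∈ Finset.range (s + 1), (s.choose i : ℤ) * c i) {i₁ V : ℕ}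
    (hi₁ : 1 ≤ i₁) (hci₁ : c i₁ ≠ 0) (hV : (c i₁).natAbs ≤ V) (k w : ℕ) (hk : i₁ < k)
    (hw : w ≤ k) :
    (((Finset.range (d ^ k)).filter (fun t : ℕ => F t ∈ E d m r)).card : ℝ) ≤
      ((d : ℝ) ^ (2 * ((2 * V + 1) + (2 * V) * w))) * (C * ((d : ℝ) ^ k) ^ eta d m) +
      (4 * d * V) * ((d : ℝ) ^ k / 2 ^ w) := by
  obtain ⟨K, G, hKd, hG1, hG2, hG3⟩ := approx hd c hc k
  set g := G.derivative with hg
  set Ev := (2 * V + 1) + (2 * V) * w with hEv
  have hVc : ∀ p : ℕ, p.Prime → ¬ (p : ℤ) ^ (V + 1) ∣ c i₁ := by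
    intro p hp hdvd
    have h1 : p ^ (V + 1) ∣ (c i₁).natAbs := by
      have h2 : ((p ^ (V + 1) : ℕ) : ℤ) ∣ c i₁ := by push_cast; exact hdvd
      exact Int.natCast_dvd.mp h2
    have h2 := Nat.le_of_dvd (Int.natAbs_pos.mpr hci₁) h1
    have h3 : V + 1 < p ^ (V + 1) := Nat.lt_pow_self hp.one_lt
    omega
  -- values of F and G
  have hFG : ∀ t : ℕ, ((G.eval (t : ℤ) : ℤ) : ZMod (d ^ k)) = (K : ZMod (d ^ k)) * (F t : ZMod (d ^ k)) := by
    intro t
    have h1 : ((d ^ k : ℕ) : ℤ) ∣ F t - ∑ i ∈ Finset.range k, (t.choose i : ℤ) * c i := by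
      set N := max (t + 1) k with hN
      have e1 : ∑ i ∈ Finset.range N, (t.choose i : ℤ) * c i = F t := by
        rw [hF t]
        symm
        apply Finset.sum_subset (Finset.range_subset_range.mpr (le_max_left _ _))
        intro i _ hi
        rw [Finset.mem_range] at hi
        rw [Nat.choose_eq_zero_of_lt (by omega)]
        simp
      rw [← e1, ← Finset.sum_range_add_sum_Ico (fun i => (t.choose i : ℤ) * c i)
        (le_max_right (t + 1) k), add_sub_cancel_left]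
      apply Finset.dvd_sum
      intro i hi
      rw [Finset.mem_Ico] at hi
      apply Dvd.dvd.mul_left
      push_cast
      exact (pow_dvd_pow _ (by omega)).trans (hc i)
    have h2 : ((F t : ℤ) : ZMod (d ^ k)) =
        ((∑ i ∈ Finset.range k, (t.choose i : ℤ) * c i : ℤ) : ZMod (d ^ k)) := by
      rw [ZMod.intCast_eq_intCast_iff_dvd_sub, dvd_sub_comm]
      exact h1
    rw [h2, hG1]
    push_cast
    ring
  set R := Finset.range (d ^ k) with hR
  set Gd := R.filter (fun t : ℕ => ∀ p : ℕ, p.Prime → p ∣ d → ¬ (p : ℤ) ^ Ev ∣ g.eval (t : ℤ))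
    with hGd
  have hcover : R.filter (fun t : ℕ => F t ∈ E d m r) ⊆
      Gd.filter (fun t : ℕ => F t ∈ E d m r) ∪
        d.primeFactors.biUnion (fun p => R.filter (fun t : ℕ => (p : ℤ) ^ Ev ∣ g.eval (t : ℤ))) := by
    intro t ht
    obtain ⟨ht1, ht2⟩ := Finset.mem_filter.mp ht
    rw [Finset.mem_union]
    by_cases hgood : ∀ p : ℕ, p.Prime → p ∣ d → ¬ (p : ℤ) ^ Ev ∣ g.eval (t : ℤ)
    · left
      exact Finset.mem_filter.mpr ⟨Finset.mem_filter.mpr ⟨ht1, hgood⟩, ht2⟩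
    · right
      push Not at hgood
      obtain ⟨p, hp, hpd, hpg⟩ := hgood
      rw [Finset.mem_biUnion]
      exact ⟨p, Nat.mem_primeFactors.mpr ⟨hp, hpd, by omega⟩, Finset.mem_filter.mpr ⟨ht1, hpg⟩⟩
  have hgoodcard : ((Gd.filter (fun t : ℕ => F t ∈ E d m r)).card : ℝ) ≤
      ((d : ℝ) ^ (2 * Ev)) * (C * ((d : ℝ) ^ k) ^ eta d m) := by
    have h1 := seq_bound hd hC F k (d ^ Ev * d ^ Ev) Gd (by
      intro a
      refine le_trans (Finset.card_le_card ?_) (good_fibre hd G k Ev ((K : ZMod (d ^ k)) * a))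
      intro t ht
      obtain ⟨ht1, ht2⟩ := Finset.mem_filter.mp ht
      refine Finset.mem_filter.mpr ⟨ht1, ?_⟩
      rw [hFG, ht2])
    refine h1.trans (le_of_eq ?_)
    push_cast
    rw [← pow_add, two_mul]
  have hbadcard : ((d.primeFactors.biUnion
      (fun p => R.filter (fun t : ℕ => (p : ℤ) ^ Ev ∣ g.eval (t : ℤ)))).card : ℝ) ≤
      (4 * d * V) * ((d : ℝ) ^ k / 2 ^ w) := by
    have hcard1 : (d.primeFactors.biUnion
      (fun p => R.filter (fun t : ℕ => (p : ℤ) ^ Ev ∣ g.eval (t : ℤ)))).card ≤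
        d.primeFactors.card * ((d ^ k / 2 ^ w + 1) * (2 * V)) := by
      refine Finset.card_biUnion_le.trans ?_
      refine (Finset.sum_le_card_nsmul _ _ ((d ^ k / 2 ^ w + 1) * (2 * V)) ?_).trans (by simp)
      intro p hp
      have hpp := Nat.prime_of_mem_primeFactors hp
      have hpd := Nat.dvd_of_mem_primeFactors hp
      obtain ⟨Z, hZ1, hZ2, hZ3⟩ := approx_deriv hpp (hG2 p hpp hpd)
        (hG3 p hpp hpd V i₁ hi₁ hk (hVc p hpp))
      have h1 := bad_count' hpp w Ev (2 * V) Z g hZ2 hZ3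
        (by rw [hEv]; exact Nat.add_le_add_left (Nat.mul_le_mul_right _ hZ1) _) (d ^ k)
      refine h1.trans (Nat.mul_le_mul (Nat.succ_le_succ ?_) hZ1)
      exact Nat.div_le_div_left (Nat.pow_le_pow_left hpp.two_le w) (by positivity)
    have hpf : d.primeFactors.card ≤ d := by
      have h1 : d.primeFactors ⊆ Finset.Icc 1 d := by
        intro p hp
        rw [Finset.mem_Icc]
        exact ⟨(Nat.prime_of_mem_primeFactors hp).pos,
          Nat.le_of_dvd (by omega) (Nat.dvd_of_mem_primeFactors hp)⟩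
      have := Finset.card_le_card h1
      simpa using this
    have h2w : (2 : ℝ) ^ w ≤ (d : ℝ) ^ k := by
      calc (2 : ℝ) ^ w ≤ (2 : ℝ) ^ k := pow_le_pow_right₀ (by norm_num) hw
        _ ≤ (d : ℝ) ^ k := pow_le_pow_left₀ (by norm_num) (by exact_mod_cast hd) k
    have h1le : (1 : ℝ) ≤ (d : ℝ) ^ k / 2 ^ w := by
      rw [one_le_div (by positivity)]; exact h2w
    have hdivle : ((d ^ k / 2 ^ w : ℕ) : ℝ) ≤ (d : ℝ) ^ k / 2 ^ w := by
      have := @Nat.cast_div_le ℝ _ _ _ (d ^ k) (2 ^ w)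
      push_cast at this
      exact this
    calc ((d.primeFactors.biUnion
      (fun p => R.filter (fun t : ℕ => (p : ℤ) ^ Ev ∣ g.eval (t : ℤ)))).card : ℝ)
        ≤ ((d.primeFactors.card * ((d ^ k / 2 ^ w + 1) * (2 * V)) : ℕ) : ℝ) := by
          exact_mod_cast hcard1
      _ = d.primeFactors.card * ((((d ^ k / 2 ^ w : ℕ) : ℝ) + 1) * (2 * V)) := by push_cast; ring
      _ ≤ d * (((d : ℝ) ^ k / 2 ^ w + (d : ℝ) ^ k / 2 ^ w) * (2 * V)) := by
          apply mul_le_mul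
          · exact_mod_cast hpf
          · apply mul_le_mul_of_nonneg_right
            · exact add_le_add hdivle h1le
            · positivity
          · positivity
          · positivity
      _ = _ := by ring
  calc (((R.filter (fun t : ℕ => F t ∈ E d m r)).card : ℕ) : ℝ)
      ≤ ((Gd.filter (fun t : ℕ => F t ∈ E d m r)).card : ℝ) +
        ((d.primeFactors.biUnion
          (fun p => R.filter (fun t : ℕ => (p : ℤ) ^ Ev ∣ g.eval (t : ℤ)))).card : ℝ) := by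
        have h1 := (Finset.card_le_card hcover).trans (Finset.card_union_le _ _)
        exact_mod_cast h1
    _ ≤ _ := add_le_add hgoodcard hbadcard

open Classical in
/-- the bound for one residue class -/
lemma class_bound (hd : 2 ≤ d) (hdm : d < m) (hco : Nat.Coprime m d)
    (hm : (m : ℝ) ≤ (d : ℝ) ^ ((d : ℝ) / ((d : ℝ) - 1))) (hr : Admissible d m r)
    (F c : ℕ → ℤ) (hc : ∀ i, (d : ℤ) ^ (2 * i) ∣ c i)
    (hF : ∀ s, F s = ∑ i ∈ Finset.range (s + 1), (s.choose i : ℤ) * c i) {i₁ : ℕ}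
    (hi₁ : 1 ≤ i₁) (hci₁ : c i₁ ≠ 0) :
    ∃ δ : ℝ, 0 < δ ∧ δ < 1 ∧ ∃ C : ℝ, 0 ≤ C ∧ ∀ k : ℕ,
      (((Finset.range (d ^ k)).filter (fun t : ℕ => F t ∈ E d m r)).card : ℝ) ≤
        C * ((d : ℝ) ^ k) ^ (1 - δ) := by
  obtain ⟨C, hC0, hC⟩ := residues hd hdm hco hm hr
  have hd' : (2 : ℝ) ≤ d := by exact_mod_cast hd
  set V := (c i₁).natAbs with hV
  obtain ⟨δ, hδ0, hδ1, hδ⟩ := choose_w hd (eta_pos hd hdm) (eta_lt_one hd hdm hco hm) (2 * V)
  refine ⟨δ, hδ0, hδ1, ((d : ℝ) ^ (2 * (2 * V + 1)) * C + 2 * (4 * d * V)) + (d : ℝ) ^ i₁,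
    by positivity, ?_⟩
  intro k
  have hQ1 : (1 : ℝ) ≤ (d : ℝ) ^ k := one_le_pow₀ (by linarith)
  have hQ2 : (1 : ℝ) ≤ ((d : ℝ) ^ k) ^ (1 - δ) := Real.one_le_rpow hQ1 (by linarith)
  rw [add_mul]
  by_cases hk : i₁ < k
  · have h1 := hδ (2 * V + 1) C (4 * d * V) hC0 (by positivity) k _ (fun w hw =>
      class_step hd hC F c hc hF hi₁ hci₁ hV.ge k w hk hw)
    have h2 : 0 ≤ (d : ℝ) ^ i₁ * ((d : ℝ) ^ k) ^ (1 - δ) := by positivity
    linarith
  · have h1 : (((Finset.range (d ^ k)).filter (fun t : ℕ => F t ∈ E d m r)).card : ℝ) ≤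
        (d : ℝ) ^ k := by
      have := Finset.card_filter_le (Finset.range (d ^ k)) (fun t : ℕ => F t ∈ E d m r)
      rw [Finset.card_range] at this
      exact_mod_cast this
    have h2 : (d : ℝ) ^ k ≤ (d : ℝ) ^ i₁ := pow_le_pow_right₀ (by linarith) (by omega)
    have h3 : (d : ℝ) ^ i₁ * 1 ≤ (d : ℝ) ^ i₁ * ((d : ℝ) ^ k) ^ (1 - δ) :=
      mul_le_mul_of_nonneg_left hQ2 (by positivity)
    have h4 : 0 ≤ ((d : ℝ) ^ (2 * (2 * V + 1)) * C + 2 * (4 * d * V)) *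
        ((d : ℝ) ^ k) ^ (1 - δ) := by positivity
    linarith

end Pool.Agent.Helper68.Moeller
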