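import Pool.Agent.Helper68.Moeller.LinRec

/-!
The exceptional set along linear recurrences: final estimate.
-/

namespace Pool.Agent.Helper68.Moeller

open Real Polynomial

variable {d m : ℕ} {r : ℤ → ℤ}

/-- `u` satisfies the linear recurrence `u (t + n + 1) = ∑ i ≤ n, c i * u (t + i)`. -/
def SatisfiesRec (n : ℕ) (c : Fin (n + 1) → ℤ) (u : ℕ → ℤ) : Prop :=
  ∀ t : ℕ, u (t + (n + 1)) = ∑ i : Fin (n + 1), c i * u (t + i)

/-- the transition map on states modulo `q`. -/
def stepMap (q n : ℕ) (c : Fin (n + 1) → ℤ) (x : Fin (n + 1) → ZMod q) : Fin (n + 1) → ZMod q :=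
  fun j => if h : (j : ℕ) < n then x ⟨j + 1, by omega⟩ else ∑ i : Fin (n + 1), (c i : ZMod q) * x i

lemma stepMap_injective {q n : ℕ} {c : Fin (n + 1) → ℤ} (hc : IsUnit ((c 0 : ℤ) : ZMod q)) :
    Function.Injective (stepMap q n c) := by
  intro x y h
  have h1 : ∀ j : ℕ, ∀ hj : j < n, x ⟨j + 1, by omega⟩ = y ⟨j + 1, by omega⟩ := by
    intro j hj
    have := congrFun h ⟨j, by omega⟩
    simp only [stepMap, hj, dif_pos] at this
    exact this
  have h2 : ∑ i : Fin (n + 1), (c i : ZMod q) * x i = ∑ i : Fin (n + 1), (c i : ZMod q) * y i := by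
    have := congrFun h ⟨n, by omega⟩
    simp only [stepMap, lt_irrefl, dif_neg, not_false_eq_true] at this
    exact this
  have h3 : ∀ i : Fin n, x i.succ = y i.succ := fun i => h1 i i.2
  rw [Fin.sum_univ_succ, Fin.sum_univ_succ] at h2
  have h4 : ∑ i : Fin n, (c i.succ : ZMod q) * x i.succ =
      ∑ i : Fin n, (c i.succ : ZMod q) * y i.succ :=
    Finset.sum_congr rfl (fun i _ => by rw [h3 i])
  rw [h4] at h2
  have h5 : x 0 = y 0 := hc.mul_left_cancel (add_right_cancel h2)
  funext i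
  refine Fin.cases h5 h3 i

/-- a common period modulo `q` for all solutions -/
lemma exists_period {q n : ℕ} [NeZero q] {c : Fin (n + 1) → ℤ}
    (hc : IsUnit ((c 0 : ℤ) : ZMod q)) :
    ∃ M : ℕ, 1 ≤ M ∧ ∀ u : ℕ → ℤ, SatisfiesRec n c u → ∀ t, (q : ℤ) ∣ u (t + M) - u t := by
  classical
  have hbij : Function.Bijective (stepMap q n c) :=
    Finite.injective_iff_bijective.mp (stepMap_injective hc)
  set e := Equiv.ofBijective _ hbij with he
  refine ⟨orderOf e, orderOf_pos e, ?_⟩
  intro u hu t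
  have hstate : ∀ t j : ℕ, (e ^ j) (fun i : Fin (n + 1) => ((u (t + i) : ℤ) : ZMod q)) =
      fun i : Fin (n + 1) => ((u (t + j + i) : ℤ) : ZMod q) := by
    intro t j
    induction j with
    | zero => simp
    | succ j ih =>
      rw [pow_succ', Equiv.Perm.mul_apply, ih]
      funext i
      rw [he, Equiv.ofBijective_apply, stepMap]
      by_cases h : (i : ℕ) < n
      · rw [dif_pos h]
        congr 2
        push_cast
        ring
      · rw [dif_neg h]
        have hi : (i : ℕ) = n := by omega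
        have h1 := hu (t + j)
        rw [hi, show t + (j + 1) + n = t + j + (n + 1) by ring, h1]
        push_cast
        rfl
  have h1 := congrFun (hstate t (orderOf e)) 0
  rw [pow_orderOf_eq_one, Equiv.Perm.one_apply] at h1
  simp only [Fin.val_zero, add_zero] at h1
  rw [ZMod.intCast_eq_intCast_iff_dvd_sub] at h1
  exact h1

/-- divisibility of the iterated differences -/
lemma dvd_iter {D : ℤ} (hD : D ≠ 0) {n M : ℕ} {c : Fin (n + 1) → ℤ}
    (hM : ∀ u : ℕ → ℤ, SatisfiesRec n c u → ∀ t, D ∣ u (t + M) - u t) (i : ℕ) :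
    ∀ u : ℕ → ℤ, SatisfiesRec n c u → ∀ t, D ^ i ∣ ((fwdDiff M)^[i] u) t := by
  induction i with
  | zero => intro u _ t; simp
  | succ i ih =>
    intro u hu t
    choose v hv using fun t => hM u hu t
    have hvrec : SatisfiesRec n c v := by
      intro t
      apply mul_left_cancel₀ hD
      rw [← hv, Finset.mul_sum]
      have h1 := hu (t + M)
      have h2 := hu t
      rw [show t + (n + 1) + M = t + M + (n + 1) by ring, h1, h2, ← Finset.sum_sub_distrib]
      apply Finset.sum_congr rfl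
      intro j _
      have h3 := hv (t + j)
      rw [show t + M + (j : ℕ) = t + j + M by ring]
      linear_combination (c j) * h3
    have hfun : (fwdDiff M u : ℕ → ℤ) = D • v := by
      funext t
      rw [fwdDiff, Pi.smul_apply, smul_eq_mul]
      exact hv t
    rw [Function.iterate_succ_apply, hfun, fwdDiff_iter_const_smul, Pi.smul_apply, smul_eq_mul,
      pow_succ']
    exact mul_dvd_mul_left D (ih v hvrec t)

/-- **Linear recurrences.** -/
lemma linrec_bound (hd : 2 ≤ d) (hdm : d < m) (hco : Nat.Coprime m d)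
    (hm : (m : ℝ) ≤ (d : ℝ) ^ ((d : ℝ) / ((d : ℝ) - 1))) (hr : Admissible d m r)
    (n : ℕ) (c : Fin (n + 1) → ℤ) (hc : IsCoprime (c 0) (d : ℤ)) (u : ℕ → ℤ)
    (hu : SatisfiesRec n c u) (hnc : ∀ a M : ℕ, 1 ≤ M → ∃ s : ℕ, u (a + M * s) ≠ u a) :
    ∃ δ : ℝ, 0 < δ ∧ ∃ C : ℝ, ∀ N : ℕ, 1 ≤ N →
      ({t : ℕ | t < N ∧ u t ∈ E d m r}.ncard : ℝ) ≤ C * (N : ℝ) ^ (1 - δ) := by
  classical
  have hd' : (2 : ℝ) ≤ d := by exact_mod_cast hd
  have : NeZero (d ^ 2) := ⟨pow_ne_zero _ (by omega)⟩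
  have hunit : IsUnit ((c 0 : ℤ) : ZMod (d ^ 2)) := by
    have h1 : IsCoprime (c 0) ((d ^ 2 : ℕ) : ℤ) := by
      push_cast
      exact IsCoprime.pow_right hc
    obtain ⟨a, b, hab⟩ := h1
    refine IsUnit.of_mul_eq_one ((a : ℤ) : ZMod (d ^ 2)) ?_
    have h2 := congrArg (fun z : ℤ => (z : ZMod (d ^ 2))) hab
    simp only [Int.cast_add, Int.cast_mul, Int.cast_natCast, Int.cast_one, ZMod.natCast_self,
      mul_zero, add_zero] at h2
    rw [mul_comm]
    exact h2
  obtain ⟨M, hM1, hM⟩ := exists_period (n := n) hunit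
  have hDne : ((d ^ 2 : ℕ) : ℤ) ≠ 0 := by
    push_cast
    exact pow_ne_zero _ (by omega)
  have hdiv := fun i => dvd_iter hDne hM i u hu
  -- the bound in each class
  have hclass : ∀ a : ℕ, ∃ δ : ℝ, 0 < δ ∧ δ < 1 ∧ ∃ C : ℝ, 0 ≤ C ∧ ∀ k : ℕ,
      (((Finset.range (d ^ k)).filter (fun s : ℕ => u (a + M * s) ∈ E d m r)).card : ℝ) ≤
        C * ((d : ℝ) ^ k) ^ (1 - δ) := by
    intro a
    have hF : ∀ s, u (a + M * s) =
        ∑ i ∈ Finset.range (s + 1), (s.choose i : ℤ) * ((fwdDiff M)^[i] u) a := by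
      intro s
      have h1 := shift_eq_sum_fwdDiff_iter M u s a
      rw [smul_eq_mul, mul_comm s M] at h1
      rw [h1]
      apply Finset.sum_congr rfl
      intro i _
      rw [nsmul_eq_mul]
    obtain ⟨i₁, hi₁, hci₁⟩ : ∃ i₁, 1 ≤ i₁ ∧ ((fwdDiff M)^[i₁] u) a ≠ 0 := by
      by_contra hcon
      push Not at hcon
      obtain ⟨s, hs⟩ := hnc a M hM1
      apply hs
      rw [hF s, Finset.sum_range_succ']
      rw [Finset.sum_eq_zero]
      · simp
      · intro i _
        rw [hcon (i + 1) (by omega), mul_zero]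
    exact class_bound hd hdm hco hm hr (fun s => u (a + M * s)) (fun i => ((fwdDiff M)^[i] u) a)
      (by
        intro i
        have := hdiv i a
        push_cast at this
        rw [← pow_mul] at this
        exact this) hF hi₁ hci₁
  choose δ hδ0 hδ1 C hC0 hC using hclass
  -- minimal δ and maximal C
  have hMne : (Finset.range M).Nonempty := ⟨0, Finset.mem_range.mpr (by omega)⟩
  set δ' := (Finset.range M).inf' hMne δ with hδ'
  set C' := ∑ a ∈ Finset.range M, C a with hC'
  have hδ'0 : 0 < δ' := by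
    rw [hδ', Finset.lt_inf'_iff]
    exact fun a _ => hδ0 a
  have hC'0 : 0 ≤ C' := Finset.sum_nonneg (fun a _ => hC0 a)
  have hδ'1 : δ' < 1 := (Finset.inf'_le _ (Finset.mem_range.mpr (by omega : 0 < M))).trans_lt (hδ1 0)
  refine ⟨δ', hδ'0, C' * (d : ℝ) ^ (1 - δ'), ?_⟩
  intro N hN
  obtain ⟨k, hk1, hk2⟩ := exists_scale hd N hN
  rw [ncard_eq_filter]
  have hcover : (Finset.range N).filter (fun t => u t ∈ E d m r) ⊆
      (Finset.range M).biUnion (fun a =>
        ((Finset.range (d ^ k)).filter (fun s : ℕ => u (a + M * s) ∈ E d m r)).image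
          (fun s => a + M * s)) := by
    intro t ht
    obtain ⟨ht1, ht2⟩ := Finset.mem_filter.mp ht
    rw [Finset.mem_range] at ht1
    rw [Finset.mem_biUnion]
    refine ⟨t % M, Finset.mem_range.mpr (Nat.mod_lt _ hM1), ?_⟩
    rw [Finset.mem_image]
    refine ⟨t / M, ?_, Nat.mod_add_div t M⟩
    rw [Finset.mem_filter, Finset.mem_range, Nat.mod_add_div]
    exact ⟨lt_of_le_of_lt (Nat.div_le_self _ _) (lt_of_lt_of_le ht1 hk1), ht2⟩
  have hcard : ((((Finset.range N).filter (fun t => u t ∈ E d m r)).card : ℕ) : ℝ) ≤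
      ∑ a ∈ Finset.range M,
        ((((Finset.range (d ^ k)).filter (fun s : ℕ => u (a + M * s) ∈ E d m r)).card : ℕ) : ℝ) := by
    have h1 := (Finset.card_le_card hcover).trans Finset.card_biUnion_le
    have h2 : ∑ a ∈ Finset.range M,
        (((Finset.range (d ^ k)).filter (fun s : ℕ => u (a + M * s) ∈ E d m r)).image
          (fun s => a + M * s)).card ≤ ∑ a ∈ Finset.range M,
        ((Finset.range (d ^ k)).filter (fun s : ℕ => u (a + M * s) ∈ E d m r)).card :=
      Finset.sum_le_sum (fun a _ => Finset.card_image_le)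
    exact_mod_cast h1.trans h2
  have hQ1 : (1 : ℝ) ≤ (d : ℝ) ^ k := one_le_pow₀ (by linarith)
  calc ((((Finset.range N).filter (fun t => u t ∈ E d m r)).card : ℕ) : ℝ) ≤ _ := hcard
    _ ≤ ∑ a ∈ Finset.range M, C a * ((d : ℝ) ^ k) ^ (1 - δ') := by
        apply Finset.sum_le_sum
        intro a ha
        refine (hC a k).trans ?_
        apply mul_le_mul_of_nonneg_left _ (hC0 a)
        apply Real.rpow_le_rpow_of_exponent_le hQ1
        have : δ' ≤ δ a := Finset.inf'_le _ ha
        linarith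
    _ = C' * ((d : ℝ) ^ k) ^ (1 - δ') := by rw [hC', Finset.sum_mul]
    _ ≤ _ := rescale hd (by linarith) hC'0 hk2

end Pool.Agent.Helper68.Moeller
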