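import Pool.Agent.Helper68.Moeller.Sequences

/-!
The exceptional set along polynomial sequences.
-/

namespace Pool.Agent.Helper68.Moeller

open Real Polynomial

variable {d m : ℕ} {r : ℤ → ℤ}

/-- if `p^E ∣ x y` and `p^w ∤ x` then `p^(E-w) ∣ y`. -/
lemma pow_sub_dvd {p : ℕ} (hp : p.Prime) {E w : ℕ} {x y : ℤ} (h : (p : ℤ) ^ E ∣ x * y)
    (hx : ¬ (p : ℤ) ^ w ∣ x) : (p : ℤ) ^ (E - w) ∣ y := by
  have hpz : Prime (p : ℤ) := Nat.prime_iff_prime_int.mp hp
  have hx0 : x ≠ 0 := by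
    rintro rfl
    exact hx (dvd_zero _)
  have hfin : FiniteMultiplicity (p : ℤ) x := by
    rw [Int.finiteMultiplicity_iff]
    refine ⟨?_, hx0⟩
    rw [Int.natAbs_natCast]
    exact hp.one_lt.ne'
  obtain ⟨x', hx1, hx2⟩ := hfin.exists_eq_pow_mul_and_not_dvd
  set v := multiplicity (p : ℤ) x with hv
  have hvw : v < w := by
    by_contra hcon
    push Not at hcon
    apply hx
    rw [hx1]
    exact Dvd.dvd.mul_right (pow_dvd_pow _ hcon) _
  rw [hx1, mul_assoc] at h
  by_cases hE : E ≤ v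
  · have : E - w = 0 := by omega
    rw [this, pow_zero]
    exact one_dvd _
  · obtain ⟨j, hj⟩ : ∃ j, E = v + j := ⟨E - v, by omega⟩
    rw [hj, pow_add] at h
    have hp0 : (p : ℤ) ^ v ≠ 0 := pow_ne_zero _ hpz.ne_zero
    have h1 : (p : ℤ) ^ j ∣ x' * y := (mul_dvd_mul_iff_left hp0).mp h
    have h2 : (p : ℤ) ^ j ∣ y := hpz.pow_dvd_of_dvd_mul_left j hx2 h1
    exact (pow_dvd_pow _ (by omega)).trans h2

/-- a polynomial of degree `n` which is divisible by `p^E` at `n + 1` points that are pairwise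
incongruent modulo `p^w`. -/
lemma poly_sep {p : ℕ} (hp : p.Prime) (w : ℕ) : ∀ (n : ℕ) (g : ℤ[X]), g.natDegree = n →
    ∀ (E : ℕ) (S : Finset ℤ), S.card = n + 1 →
      (∀ x ∈ S, ∀ y ∈ S, (p : ℤ) ^ w ∣ x - y → x = y) →
      (∀ x ∈ S, (p : ℤ) ^ E ∣ g.eval x) → (p : ℤ) ^ E ∣ g.leadingCoeff * (p : ℤ) ^ (n * w) := by
  intro n
  induction n with
  | zero =>
    intro g hg E S hS _ hE
    obtain ⟨x, hx⟩ : S.Nonempty := by
      rw [← Finset.card_pos]; omega
    have h1 := hE x hx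
    rw [Polynomial.eq_C_of_natDegree_eq_zero hg, eval_C] at h1
    rw [zero_mul, pow_zero, mul_one, Polynomial.leadingCoeff, hg]
    exact h1
  | succ n ih =>
    intro g hg E S hS hsep hE
    obtain ⟨x₀, hx₀⟩ : S.Nonempty := by
      rw [← Finset.card_pos]; omega
    have hroot : (g - C (g.eval x₀)).IsRoot x₀ := by
      simp [Polynomial.IsRoot]
    obtain ⟨h, hh⟩ := Polynomial.dvd_iff_isRoot.mpr hroot
    have hdeg : (g - C (g.eval x₀)).natDegree = n + 1 := by
      rw [Polynomial.natDegree_sub_C, hg]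
    have hne : g - C (g.eval x₀) ≠ 0 := by
      intro h0
      rw [h0, natDegree_zero] at hdeg
      omega
    have hh0 : h ≠ 0 := by
      rintro rfl
      rw [mul_zero] at hh
      exact hne hh
    have hhdeg : h.natDegree = n := by
      rw [hh, Polynomial.natDegree_mul (X_sub_C_ne_zero x₀) hh0, natDegree_X_sub_C] at hdeg
      omega
    have hlead : h.leadingCoeff = g.leadingCoeff := by
      have h1 : (g - C (g.eval x₀)).leadingCoeff = h.leadingCoeff := by
        rw [hh, Polynomial.leadingCoeff_mul, leadingCoeff_X_sub_C, one_mul]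
      rw [← h1]
      apply Polynomial.leadingCoeff_sub_of_degree_lt
      apply lt_of_le_of_lt Polynomial.degree_C_le
      rw [← Polynomial.natDegree_pos_iff_degree_pos, hg]
      omega
    have h1 := ih h hhdeg (E - w) (S.erase x₀) (by rw [Finset.card_erase_of_mem hx₀, hS]; rfl)
      (fun x hx y hy => hsep x (Finset.mem_of_mem_erase hx) y (Finset.mem_of_mem_erase hy)) (by
      intro x hx
      have hx' := Finset.mem_of_mem_erase hx
      apply pow_sub_dvd hp (x := x - x₀)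
      · have h2 : (x - x₀) * h.eval x = g.eval x - g.eval x₀ := by
          have := congrArg (Polynomial.eval x) hh
          simp only [eval_sub, eval_C, eval_mul, eval_X] at this
          exact this.symm
        rw [h2]
        exact _root_.dvd_sub (hE x hx') (hE x₀ hx₀)
      · intro h3
        exact Finset.ne_of_mem_erase hx (hsep x hx' x₀ hx₀ h3))
    rw [hlead] at h1
    have h2 : (p : ℤ) ^ E ∣ (p : ℤ) ^ w * (p : ℤ) ^ (E - w) := by
      rw [← pow_add]
      exact pow_dvd_pow _ (by omega)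
    refine h2.trans ?_
    have e : g.leadingCoeff * (p : ℤ) ^ ((n + 1) * w) =
        (p : ℤ) ^ w * (g.leadingCoeff * (p : ℤ) ^ (n * w)) := by
      rw [add_mul, one_mul, pow_add]; ring
    rw [e]
    exact mul_dvd_mul_left _ h1

open Classical in
/-- the number of `t < Q` with `p^E ∣ g(t)`. -/
lemma bad_count {p : ℕ} (hp : p.Prime) (w E : ℕ) (g : ℤ[X])
    (hE : ¬ (p : ℤ) ^ E ∣ g.leadingCoeff * (p : ℤ) ^ (g.natDegree * w)) (Q : ℕ) :
    ((Finset.range Q).filter (fun t : ℕ => (p : ℤ) ^ E ∣ g.eval (t : ℤ))).card ≤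
      (Q / p ^ w + 1) * g.natDegree := by
  set Z := (Finset.range Q).filter (fun t : ℕ => (p : ℤ) ^ E ∣ g.eval (t : ℤ)) with hZ
  have hpw : 0 < p ^ w := Nat.pow_pos hp.pos
  have h1 := Finset.card_le_mul_card_image (f := fun t => t % p ^ w) Z (Q / p ^ w + 1) (by
    intro a _
    have : (Z.filter (fun t => t % p ^ w = a)).card ≤ (Finset.range (Q / p ^ w + 1)).card := by
      apply Finset.card_le_card_of_injOn (fun t => t / p ^ w)
      · intro t ht
        rw [Finset.mem_coe, Finset.mem_filter, hZ, Finset.mem_filter, Finset.mem_range] at ht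
        rw [Finset.mem_coe, Finset.mem_range, Nat.lt_succ_iff]
        exact Nat.div_le_div_right ht.1.1.le
      · intro t ht t' ht' heq
        rw [Finset.mem_coe, Finset.mem_filter] at ht ht'
        have heq' : t / p ^ w = t' / p ^ w := heq
        rw [← Nat.div_add_mod t (p ^ w), ← Nat.div_add_mod t' (p ^ w), heq', ht.2, ht'.2]
    simpa using this)
  refine h1.trans (Nat.mul_le_mul_left _ ?_)
  by_contra hcon
  push Not at hcon
  -- choose n + 1 classes
  obtain ⟨A, hA1, hA2⟩ := Finset.exists_subset_card_eq (Nat.succ_le_of_lt hcon)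
  have hex : ∀ a : ℕ, ∃ t : ℕ, a ∈ A → t ∈ Z ∧ t % p ^ w = a := by
    intro a
    by_cases ha : a ∈ A
    · obtain ⟨t, ht, hta⟩ := Finset.mem_image.mp (hA1 ha)
      exact ⟨t, fun _ => ⟨ht, hta⟩⟩
    · exact ⟨0, fun h => absurd h ha⟩
  choose s hs using hex
  apply hE
  have hinj : Set.InjOn (fun a => (s a : ℤ)) (A : Set ℕ) := by
    intro a ha b hb hab
    have hab'' : ((s a : ℕ) : ℤ) = s b := hab
    have hab' : s a = s b := by exact_mod_cast hab''
    rw [← (hs a ha).2, ← (hs b hb).2, hab']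
  apply poly_sep hp w g.natDegree g rfl E (A.image (fun a => (s a : ℤ)))
  · rw [Finset.card_image_of_injOn hinj, hA2]
  · intro x hx y hy hxy
    obtain ⟨a, ha, rfl⟩ := Finset.mem_image.mp hx
    obtain ⟨b, hb, rfl⟩ := Finset.mem_image.mp hy
    have h2 : s b ≡ s a [MOD p ^ w] := by
      rw [← Int.natCast_modEq_iff, Int.modEq_iff_dvd]
      push_cast
      exact hxy
    have h3 : s a % p ^ w = s b % p ^ w := h2.symm
    rw [(hs a ha).2, (hs b hb).2] at h3
    rw [h3]
  · intro x hx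
    obtain ⟨a, ha, rfl⟩ := Finset.mem_image.mp hx
    exact (Finset.mem_filter.mp (hs a ha).1).2

/-- Hensel-type lemma. -/
lemma hensel (hd : 2 ≤ d) (f : ℤ[X]) {k E : ℕ} {t t' : ℤ}
    (hgood : ∀ p : ℕ, p.Prime → p ∣ d → ¬ (p : ℤ) ^ E ∣ f.derivative.eval t)
    (hcl : (d : ℤ) ^ E ∣ t' - t) (hf : (d : ℤ) ^ k ∣ f.eval t' - f.eval t) :
    (d : ℤ) ^ k ∣ (d : ℤ) ^ E * (t' - t) := by
  obtain ⟨c, hc⟩ := Polynomial.binomExpansion f t (t' - t)
  set y := t' - t with hy
  have e1 : t + y = t' := by rw [hy]; ring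
  rw [e1] at hc
  set u := f.derivative.eval t + c * y with hu
  have e2 : f.eval t' - f.eval t = u * y := by rw [hc, hu]; ring
  rw [e2] at hf
  have hup : ∀ p : ℕ, p.Prime → p ∣ d → ¬ (p : ℤ) ^ E ∣ u := by
    intro p hp hpd hdvd
    apply hgood p hp hpd
    have h1 : (p : ℤ) ^ E ∣ y := (pow_dvd_pow_of_dvd (by exact_mod_cast hpd) E).trans hcl
    have h2 : f.derivative.eval t = u - c * y := by rw [hu]; ring
    rw [h2]
    exact _root_.dvd_sub hdvd (Dvd.dvd.mul_left h1 c)
  have hu0 : u ≠ 0 := by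
    intro h0
    obtain ⟨p, hp, hpd⟩ := Nat.exists_prime_and_dvd (by omega : d ≠ 1)
    exact hup p hp hpd (h0 ▸ dvd_zero _)
  -- gcd (d^k, u) ∣ d^E
  have hgcd : Nat.gcd (d ^ k) u.natAbs ∣ d ^ E := by
    have hd0 : d ^ k ≠ 0 := pow_ne_zero _ (by omega)
    have hg0 : Nat.gcd (d ^ k) u.natAbs ≠ 0 := Nat.gcd_ne_zero_left hd0
    rw [← Nat.factorization_prime_le_iff_dvd hg0 (pow_ne_zero _ (by omega))]
    intro p hp
    by_cases hpd : p ∣ d
    · have h1 : (Nat.gcd (d ^ k) u.natAbs).factorization p ≤ u.natAbs.factorization p :=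
        (Nat.factorization_prime_le_iff_dvd hg0 (Int.natAbs_ne_zero.mpr hu0)).mpr
          (Nat.gcd_dvd_right _ _) p hp
      have h2 : u.natAbs.factorization p < E := by
        by_contra hcon
        push Not at hcon
        apply hup p hp hpd
        have h3 : p ^ E ∣ u.natAbs :=
          (hp.pow_dvd_iff_le_factorization (Int.natAbs_ne_zero.mpr hu0)).mpr hcon
        have h4 : ((p ^ E : ℕ) : ℤ) ∣ u := Int.natCast_dvd.mpr h3
        exact_mod_cast h4
      have h3 : E ≤ (d ^ E).factorization p := by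
        rw [← hp.pow_dvd_iff_le_factorization (pow_ne_zero _ (by omega))]
        exact pow_dvd_pow_of_dvd hpd E
      omega
    · have : (Nat.gcd (d ^ k) u.natAbs).factorization p = 0 := by
        apply Nat.factorization_eq_zero_of_not_dvd
        intro h1
        exact hpd (hp.dvd_of_dvd_pow (h1.trans (Nat.gcd_dvd_left _ _)))
      omega
  have h1 : (d ^ k) ∣ Nat.gcd (d ^ k) u.natAbs * y.natAbs := by
    rw [← Nat.gcd_mul_right]
    apply Nat.dvd_gcd (Dvd.intro _ rfl)
    rw [← Int.natAbs_mul]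
    have : ((d ^ k : ℕ) : ℤ) ∣ u * y := by push_cast; exact hf
    exact Int.natCast_dvd.mp this
  have h2 : d ^ k ∣ d ^ E * y.natAbs := h1.trans (Nat.mul_dvd_mul_right hgcd _)
  have h3 : ((d ^ k : ℕ) : ℤ) ∣ (d : ℤ) ^ E * y := by
    rw [Int.natCast_dvd, Int.natAbs_mul, Int.natAbs_pow, Int.natAbs_natCast]
    exact h2
  exact_mod_cast h3

open Classical in
/-- The fibres on the good set. -/
lemma good_fibre (hd : 2 ≤ d) (f : ℤ[X]) (k E : ℕ) (a : ZMod (d ^ k)) :
    (((Finset.range (d ^ k)).filter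
        (fun t : ℕ => ∀ p : ℕ, p.Prime → p ∣ d → ¬ (p : ℤ) ^ E ∣ f.derivative.eval (t : ℤ))).filter
      (fun t : ℕ => ((f.eval (t : ℤ) : ℤ) : ZMod (d ^ k)) = a)).card ≤ d ^ E * d ^ E := by
  set F := ((Finset.range (d ^ k)).filter
        (fun t : ℕ => ∀ p : ℕ, p.Prime → p ∣ d → ¬ (p : ℤ) ^ E ∣ f.derivative.eval (t : ℤ))).filter
      (fun t : ℕ => ((f.eval (t : ℤ) : ℤ) : ZMod (d ^ k)) = a) with hF
  have hdE : 0 < d ^ E := Nat.pow_pos (by omega)
  have hmaps : ∀ t ∈ F, t % d ^ E ∈ Finset.range (d ^ E) := by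
    intro t _
    rw [Finset.mem_range]
    exact Nat.mod_lt _ hdE
  rw [Finset.card_eq_sum_card_fiberwise hmaps]
  refine (Finset.sum_le_card_nsmul _ _ (d ^ E) ?_).trans (by simp)
  intro j _
  apply card_le_of_gap (Q := d ^ k) (Nat.pow_pos (by omega))
  · intro t ht
    have h1 := (Finset.mem_filter.mp (Finset.mem_filter.mp (Finset.mem_filter.mp ht).1).1).1
    exact Finset.mem_range.mp h1
  · intro t ht t' ht' hlt
    obtain ⟨ht1, ht2⟩ := Finset.mem_filter.mp ht
    obtain ⟨ht1', ht2'⟩ := Finset.mem_filter.mp ht'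
    obtain ⟨ht3, ht4⟩ := Finset.mem_filter.mp ht1
    obtain ⟨ht3', ht4'⟩ := Finset.mem_filter.mp ht1'
    obtain ⟨ht5, ht6⟩ := Finset.mem_filter.mp ht3
    have h1 : (d : ℤ) ^ E ∣ (t' : ℤ) - t := by
      have : t ≡ t' [MOD d ^ E] := by
        show t % d ^ E = t' % d ^ E
        rw [ht2, ht2']
      rw [← Int.natCast_modEq_iff, Int.modEq_iff_dvd] at this
      push_cast at this
      exact this
    have h2 : (d : ℤ) ^ k ∣ f.eval (t' : ℤ) - f.eval (t : ℤ) := by
      have h3 : ((f.eval (t : ℤ) : ℤ) : ZMod (d ^ k)) = ((f.eval (t' : ℤ) : ℤ) : ZMod (d ^ k)) := by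
        rw [ht4, ht4']
      rw [ZMod.intCast_eq_intCast_iff_dvd_sub] at h3
      push_cast at h3
      exact h3
    have h3 := hensel hd f ht6 h1 h2
    apply Nat.le_of_dvd (Nat.mul_pos hdE (by omega))
    have h4 : ((d ^ k : ℕ) : ℤ) ∣ ((d ^ E * (t' - t) : ℕ) : ℤ) := by
      push_cast [Nat.cast_sub hlt.le]
      exact h3
    exact_mod_cast h4
  · exact hdE

end Pool.Agent.Helper68.Moeller
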