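import Pool.Agent.Helper68.Moeller.Residues

/-!
# Möller's exceptional sets are uniformly sparse modulo `d^k`

For all `d ≥ 2` and all `m > d` coprime to `d` with `m ≤ d^(d/(d-1))` there are constants `C`,
`κ` and `η < 1`, depending only on `d` and `m`, such that for every admissible `R` with
`|r_j| ≤ B` and every `k`, any set of integers that are pairwise incongruent modulo `d^k` contains
at most `C B^(1 + κ) d^(η k)` elements of the exceptional set `E(d, m, R)`.
-/

namespace Pool.Agent.Helper68.Moeller.ResidueClassesOld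

open Pool.Agent.Helper68.Moeller

theorem result (d m : ℕ) (hd : 2 ≤ d) (hdm : d < m) (hco : Nat.Coprime m d)
    (hm : (m : ℝ) ≤ (d : ℝ) ^ ((d : ℝ) / ((d : ℝ) - 1))) :
    0 < kap d m ∧ 0 < eta d m ∧ eta d m < 1 ∧
    ∃ C : ℝ, ∀ r : ℤ → ℤ, Admissible d m r → ∀ B : ℤ, 1 ≤ B →
      (∀ j : ℤ, 0 < j → j < (d : ℤ) → |r j| ≤ B) → ∀ k : ℕ, ∀ S : Set ℤ,
        (∀ x ∈ S, ∀ y ∈ S, x ≡ y [ZMOD (d : ℤ) ^ k] → x = y) →
          ((S ∩ E d m r).ncard : ℝ) ≤ C * (B : ℝ) ^ (1 + kap d m) * ((d : ℝ) ^ k) ^ eta d m := by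
  refine ⟨kap_pos hd hdm hco hm, eta_pos hd hdm, eta_lt_one hd hdm hco hm, ?_⟩
  obtain ⟨C, hC0, hC⟩ := main_bound_unif hd hdm hco hm
  refine ⟨C, fun r hr B hB1 hB k S hS => ?_⟩
  -- `S` is finite, being pairwise incongruent modulo `d ^ k`
  have hfin : (S ∩ E d m r).Finite := by
    have : NeZero (d ^ k) := ⟨pow_ne_zero _ (by omega)⟩
    have h1 : Set.InjOn (fun n : ℤ => (n : ZMod (d ^ k))) (S ∩ E d m r) := by
      intro x hx y hy hxy
      apply hS x hx.1 y hy.1
      have h2 := (ZMod.intCast_eq_intCast_iff x y (d ^ k)).mp hxy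
      push_cast at h2
      exact h2
    exact Set.Finite.of_finite_image (Set.toFinite _) h1
  have h2 := hC r hr B hB1 hB k hfin.toFinset (by
    intro x hx y hy hxy
    rw [Set.Finite.mem_toFinset] at hx hy
    exact (hS y hy.1 x hx.1 (Int.modEq_iff_dvd.mpr hxy)).symm) (by
    intro x hx
    rw [Set.Finite.mem_toFinset] at hx
    exact hx.2)
  rw [Set.ncard_eq_toFinset_card _ hfin]
  exact h2

end Pool.Agent.Helper68.Moeller.ResidueClassesOld
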