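import Pool.Agent.Helper68.Moeller.Residues

/-!
The exceptional set along arithmetic progressions, geometric progressions and polynomials.
-/

namespace Pool.Agent.Helper68.Moeller

open Real

variable {d m : ℕ} {r : ℤ → ℤ}

open Classical in
/-- bound along a sequence with small fibres modulo `d^k` -/
lemma seq_bound (hd : 2 ≤ d) {C : ℝ}
    (hC : ∀ k : ℕ, (((fun n : ℤ => (n : ZMod (d ^ k))) '' E d m r).ncard : ℝ) ≤
      C * ((d : ℝ) ^ k) ^ eta d m) (f : ℕ → ℤ) (k M : ℕ) (G : Finset ℕ)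
    (hfib : ∀ a : ZMod (d ^ k), (G.filter (fun t => (f t : ZMod (d ^ k)) = a)).card ≤ M) :
    ((G.filter (fun t => f t ∈ E d m r)).card : ℝ) ≤ M * (C * ((d : ℝ) ^ k) ^ eta d m) := by
  have : NeZero (d ^ k) := ⟨pow_ne_zero _ (by omega)⟩
  set G' := G.filter (fun t => f t ∈ E d m r) with hG'
  have h1 := Finset.card_le_mul_card_image (f := fun t => (f t : ZMod (d ^ k))) G' M (by
    intro a _
    refine le_trans (Finset.card_le_card ?_) (hfib a)
    intro t ht
    rw [Finset.mem_filter] at ht ⊢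
    exact ⟨(Finset.mem_filter.mp ht.1).1, ht.2⟩)
  have h2 : ((G'.image (fun t => (f t : ZMod (d ^ k)))).card : ℝ) ≤
      C * ((d : ℝ) ^ k) ^ eta d m := by
    refine le_trans ?_ (hC k)
    norm_cast
    rw [← Set.ncard_coe_finset]
    apply Set.ncard_le_ncard _ (Set.toFinite _)
    intro a ha
    obtain ⟨t, ht, rfl⟩ := Finset.mem_image.mp (Finset.mem_coe.mp ha)
    exact ⟨f t, (Finset.mem_filter.mp ht).2, rfl⟩
  calc (G'.card : ℝ) ≤ ((M * (G'.image (fun t => (f t : ZMod (d ^ k)))).card : ℕ) : ℝ) := by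
        exact_mod_cast h1
    _ = M * ((G'.image (fun t => (f t : ZMod (d ^ k)))).card : ℝ) := by push_cast; ring
    _ ≤ M * (C * ((d : ℝ) ^ k) ^ eta d m) := mul_le_mul_of_nonneg_left h2 (Nat.cast_nonneg _)

lemma exists_scale (hd : 2 ≤ d) (N : ℕ) (hN : 1 ≤ N) : ∃ k : ℕ, N ≤ d ^ k ∧ d ^ k ≤ d * N := by
  rcases hN.eq_or_lt with h | h
  · exact ⟨0, by simp [← h], by simp [← h]; omega⟩
  · refine ⟨Nat.clog d N, Nat.le_pow_clog (by omega) N, ?_⟩
    have h1 := Nat.pow_pred_clog_lt_self (by omega : 1 < d) h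
    have h2 : 0 < Nat.clog d N := Nat.clog_pos (by omega) h
    obtain ⟨j, hj⟩ : ∃ j, Nat.clog d N = j + 1 := ⟨Nat.clog d N - 1, by omega⟩
    rw [hj] at h1 ⊢
    rw [Nat.pred_succ] at h1
    rw [pow_succ']
    exact Nat.mul_le_mul_left _ h1.le

/-- spacing lemma -/
lemma card_le_of_gap {F : Finset ℕ} {Q K : ℕ} (hQ : 0 < Q) (hF : ∀ t ∈ F, t < Q)
    (hgap : ∀ t ∈ F, ∀ t' ∈ F, t < t' → Q ≤ K * (t' - t)) (hK : 0 < K) : F.card ≤ K := by
  have h1 : F.card ≤ (Finset.range K).card := by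
    apply Finset.card_le_card_of_injOn (fun t => K * t / Q)
    · intro t ht
      have ht' := hF t ht
      rw [Finset.mem_coe, Finset.mem_range]
      apply Nat.div_lt_of_lt_mul
      rw [mul_comm Q K]
      exact Nat.mul_lt_mul_of_pos_left ht' hK
    · have key : ∀ t ∈ F, ∀ t' ∈ F, t < t' → K * t / Q < K * t' / Q := by
        intro t ht t' ht' hlt
        have h2 := hgap t ht t' ht' hlt
        have h3 : K * t + Q ≤ K * t' := by
          have : K * t' = K * t + K * (t' - t) := by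
            rw [← mul_add]; congr 1; omega
          omega
        have h4 : (K * t + Q) / Q = K * t / Q + 1 := Nat.add_div_right _ hQ
        have h5 := Nat.div_le_div_right (c := Q) h3
        omega
      intro t ht t' ht' heq
      rcases lt_trichotomy t t' with h | h | h
      · exact absurd heq (key t ht t' ht' h).ne
      · exact h
      · exact absurd heq (key t' ht' t ht h).ne'
  simpa using h1

lemma ncard_eq_filter (N : ℕ) (P : ℕ → Prop) [DecidablePred P] :
    {t : ℕ | t < N ∧ P t}.ncard = ((Finset.range N).filter P).card := by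
  rw [← Set.ncard_coe_finset]
  congr 1
  ext t
  simp

/-- passing from scale `d^k` to `N` -/
lemma rescale (hd : 2 ≤ d) {e : ℝ} (he : 0 ≤ e) {C : ℝ} (hC0 : 0 ≤ C) {k N : ℕ}
    (hk : d ^ k ≤ d * N) : C * ((d : ℝ) ^ k) ^ e ≤ (C * (d : ℝ) ^ e) * (N : ℝ) ^ e := by
  rw [mul_assoc]
  apply mul_le_mul_of_nonneg_left _ hC0
  rw [← Real.mul_rpow (by positivity) (by positivity)]
  apply Real.rpow_le_rpow (by positivity) _ he
  exact_mod_cast hk

/-- **Arithmetic progressions.** -/
lemma ap_bound (hd : 2 ≤ d) (hdm : d < m) (hco : Nat.Coprime m d)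
    (hm : (m : ℝ) ≤ (d : ℝ) ^ ((d : ℝ) / ((d : ℝ) - 1))) (hr : Admissible d m r) :
    ∃ C : ℝ, ∀ a q : ℤ, IsCoprime q (d : ℤ) → ∀ N : ℕ, 1 ≤ N →
      ({t : ℕ | t < N ∧ a + q * t ∈ E d m r}.ncard : ℝ) ≤ C * (N : ℝ) ^ eta d m := by
  classical
  obtain ⟨C, hC0, hC⟩ := residues hd hdm hco hm hr
  refine ⟨C * (d : ℝ) ^ eta d m, fun a q hq N hN => ?_⟩
  obtain ⟨k, hk1, hk2⟩ := exists_scale hd N hN
  rw [ncard_eq_filter]
  have h1 := seq_bound hd hC (fun t : ℕ => a + q * t) k 1 (Finset.range N) (by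
    intro b
    rw [Finset.card_le_one]
    intro t ht t' ht'
    rw [Finset.mem_filter, Finset.mem_range] at ht ht'
    have h2 : ((a + q * t : ℤ) : ZMod (d ^ k)) = ((a + q * t' : ℤ) : ZMod (d ^ k)) := by
      rw [ht.2, ht'.2]
    rw [ZMod.intCast_eq_intCast_iff_dvd_sub] at h2
    have h3 : ((d ^ k : ℕ) : ℤ) ∣ q * ((t' : ℤ) - t) := by
      have e : a + q * (t' : ℤ) - (a + q * (t : ℤ)) = q * ((t' : ℤ) - t) := by ring
      rwa [e] at h2
    have h4 : IsCoprime ((d ^ k : ℕ) : ℤ) q := by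
      push_cast
      exact IsCoprime.pow_left hq.symm
    have h5 := h4.dvd_of_dvd_mul_left h3
    have h6 : ((t' : ℤ) - t) = 0 := by
      apply Int.eq_zero_of_abs_lt_dvd h5
      rw [abs_lt]
      have h7 : (N : ℤ) ≤ ((d ^ k : ℕ) : ℤ) := by exact_mod_cast hk1
      constructor <;> omega
    omega)
  refine h1.trans ?_
  rw [Nat.cast_one, one_mul]
  exact rescale hd (eta_pos hd hdm).le hC0 hk2

/-- LTE input for geometric progressions -/
lemma lte {g c : ℕ} (hg : 2 ≤ g) (hgd : Nat.Coprime g d) (hc : 0 < c) (hd : 2 ≤ d) {k s : ℕ}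
    (hs : 0 < s) (h : d ^ k ∣ c * (g ^ s - 1)) :
    d ^ k ∣ c * ((g ^ Nat.totient d) ^ 2 - 1) * s := by
  set G := g ^ Nat.totient d with hG
  have htot : 0 < Nat.totient d := Nat.totient_pos.mpr (by omega)
  have hG2 : 2 ≤ G := by
    calc 2 ≤ g := hg
      _ = g ^ 1 := (pow_one g).symm
      _ ≤ g ^ Nat.totient d := Nat.pow_le_pow_right (by omega) htot
  have hGsq : 1 < G ^ 2 := by nlinarith
  have hK0 : G ^ 2 - 1 ≠ 0 := by omega
  have hgs : 1 < g ^ s := Nat.one_lt_pow (by omega) (by omega)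
  rw [← Nat.factorization_prime_le_iff_dvd (pow_ne_zero _ (by omega))
    (mul_ne_zero (mul_ne_zero hc.ne' hK0) hs.ne')] 
  intro p hp
  by_cases hpd : p ∣ d
  · have hpdvd : p ∣ G - 1 := by
      have h1 : G ≡ 1 [MOD d] := Nat.ModEq.pow_totient hgd
      have h2 : d ∣ G - 1 := (Nat.modEq_iff_dvd' (by omega)).mp h1.symm
      exact hpd.trans h2
    have hpg : ¬ p ∣ g := by
      intro h1
      have h2 := Nat.dvd_gcd h1 hpd
      rw [hgd] at h2
      exact hp.one_lt.ne' (Nat.dvd_one.mp h2)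
    have hpG : ¬ p ∣ G := fun h1 => hpg (hp.dvd_of_dvd_pow h1)
    have hfac := Nat.factorization_prime_le_iff_dvd (pow_ne_zero k (by omega : d ≠ 0))
      (mul_ne_zero hc.ne' (by omega : g ^ s - 1 ≠ 0)) |>.mpr h p hp
    refine hfac.trans ?_
    rw [Nat.factorization_mul hc.ne' (by omega), Nat.factorization_mul (mul_ne_zero hc.ne' hK0)
      hs.ne', Nat.factorization_mul hc.ne' hK0]
    simp only [Finsupp.add_apply]
    have hdvd : g ^ s - 1 ∣ G ^ (2 * s) - 1 := by
      rw [hG, ← pow_mul]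
      have : Nat.totient d * (2 * s) = s * (Nat.totient d * 2) := by ring
      rw [this, pow_mul]
      exact Nat.sub_one_dvd_pow_sub_one _ _
    have hle : (g ^ s - 1).factorization p ≤ (G ^ (2 * s) - 1).factorization p := by
      have hne : G ^ (2 * s) - 1 ≠ 0 := by
        have : 1 < G ^ (2 * s) := Nat.one_lt_pow (by omega) (by omega)
        omega
      exact (Nat.factorization_prime_le_iff_dvd (by omega) hne).mpr hdvd p hp
    have hval : (G ^ (2 * s) - 1).factorization p =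
        (G ^ 2 - 1).factorization p + s.factorization p := by
      have : Fact p.Prime := ⟨hp⟩
      rw [Nat.factorization_def _ hp, Nat.factorization_def _ hp, Nat.factorization_def _ hp]
      rcases hp.eq_two_or_odd' with h2 | hodd
      · subst h2
        have e1 := padicValNat.pow_two_sub_pow (x := G) (y := 1) (by omega) hpdvd hpG
          (n := 2 * s) (by omega) (even_two_mul s)
        have e2 := padicValNat.pow_two_sub_pow (x := G) (y := 1) (by omega) hpdvd hpG
          (n := 2) (by omega) even_two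
        rw [one_pow] at e1 e2
        have e3 : padicValNat 2 (2 * s) = padicValNat 2 2 + padicValNat 2 s :=
          padicValNat.mul (by norm_num) hs.ne'
        omega
      · have e1 := padicValNat.pow_sub_pow (p := p) hodd (x := G ^ 2) (y := 1) hGsq
          (by
            have : G - 1 ∣ G ^ 2 - 1 := Nat.sub_one_dvd_pow_sub_one _ _
            exact hpdvd.trans this)
          (fun h1 => hpG (hp.dvd_of_dvd_pow h1)) (n := s) hs.ne'
        rw [one_pow, ← pow_mul] at e1
        exact e1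
    omega
  · have : (d ^ k).factorization p = 0 := by
      rw [Nat.factorization_pow, Finsupp.smul_apply, Nat.factorization_eq_zero_of_not_dvd hpd,
        smul_zero]
    rw [this]
    exact Nat.zero_le _

/-- **Geometric progressions.** -/
lemma gp_bound (hd : 2 ≤ d) (hdm : d < m) (hco : Nat.Coprime m d)
    (hm : (m : ℝ) ≤ (d : ℝ) ^ ((d : ℝ) / ((d : ℝ) - 1))) (hr : Admissible d m r)
    (c g : ℕ) (hc : 1 ≤ c) (hg : 2 ≤ g) (hgd : Nat.Coprime g d) :
    ∃ C : ℝ, ∀ N : ℕ, 1 ≤ N →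
      ({t : ℕ | t < N ∧ (c : ℤ) * (g : ℤ) ^ t ∈ E d m r}.ncard : ℝ) ≤ C * (N : ℝ) ^ eta d m := by
  classical
  obtain ⟨C, hC0, hC⟩ := residues hd hdm hco hm hr
  set K := c * ((g ^ Nat.totient d) ^ 2 - 1) with hK
  have htot : 0 < Nat.totient d := Nat.totient_pos.mpr (by omega)
  have hG2 : 2 ≤ g ^ Nat.totient d := by
    calc 2 ≤ g := hg
      _ = g ^ 1 := (pow_one g).symm
      _ ≤ g ^ Nat.totient d := Nat.pow_le_pow_right (by omega) htot
  have hK0 : 0 < K := by
    have : 1 < (g ^ Nat.totient d) ^ 2 := by nlinarith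
    exact Nat.mul_pos (by omega) (by omega)
  refine ⟨(K * C) * (d : ℝ) ^ eta d m, fun N hN => ?_⟩
  obtain ⟨k, hk1, hk2⟩ := exists_scale hd N hN
  rw [ncard_eq_filter]
  have h1 := seq_bound hd hC (fun t : ℕ => (c : ℤ) * (g : ℤ) ^ t) k K (Finset.range N) (by
    intro b
    apply card_le_of_gap (Q := d ^ k) (by positivity)
    · intro t ht
      rw [Finset.mem_filter, Finset.mem_range] at ht
      omega
    · intro t ht t' ht' hlt
      rw [Finset.mem_filter, Finset.mem_range] at ht ht'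
      have h2 : ((c * g ^ t : ℤ) : ZMod (d ^ k)) = ((c * g ^ t' : ℤ) : ZMod (d ^ k)) := by
        rw [ht.2, ht'.2]
      rw [ZMod.intCast_eq_intCast_iff_dvd_sub] at h2
      obtain ⟨s, rfl⟩ : ∃ s, t' = t + s := ⟨t' - t, by omega⟩
      have hs : 0 < s := by omega
      have h3 : ((d ^ k : ℕ) : ℤ) ∣ (g : ℤ) ^ t * (c * (g ^ s - 1)) := by
        have e : (c : ℤ) * (g : ℤ) ^ (t + s) - c * (g : ℤ) ^ t =
          (g : ℤ) ^ t * (c * (g ^ s - 1)) := by ring
        rwa [e] at h2
      have h4 : IsCoprime ((d ^ k : ℕ) : ℤ) ((g : ℤ) ^ t) := by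
        push_cast
        exact IsCoprime.pow (Nat.isCoprime_iff_coprime.mpr hgd).symm
      have h5 := h4.dvd_of_dvd_mul_left h3
      have h6 : d ^ k ∣ c * (g ^ s - 1) := by
        have hle : 1 ≤ g ^ s := Nat.one_le_pow _ _ (by omega)
        have e : ((c * (g ^ s - 1) : ℕ) : ℤ) = c * (g ^ s - 1) := by
          push_cast [Nat.cast_sub hle]; ring
        rw [← e] at h5
        exact_mod_cast h5
      have h7 := lte hg hgd (by omega) hd hs h6
      rw [Nat.add_sub_cancel_left]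
      exact Nat.le_of_dvd (Nat.mul_pos hK0 hs) h7
    · exact hK0)
  refine h1.trans ?_
  rw [← mul_assoc]
  exact rescale hd (eta_pos hd hdm).le (by positivity) hk2

end Pool.Agent.Helper68.Moeller
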