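import Pool.Agent.Helper68.Moeller.PolySeq

/-!
Weierstrass-degree version of the separation lemma, and approximation of sequences with rapidly
convergent Newton series by integer polynomials.
-/

namespace Pool.Agent.Helper68.Moeller

open Real Polynomial

variable {d m : ℕ} {r : ℤ → ℤ}

/-- a polynomial with `p`-adic Weierstrass degree `Z` -/
lemma weier_sep {p : ℕ} (hp : p.Prime) (w V : ℕ) : ∀ (Z : ℕ) (g : ℤ[X]),
    ¬ (p : ℤ) ^ (V + 1) ∣ g.coeff Z → (∀ j, Z < j → (p : ℤ) ^ (V + 1) ∣ g.coeff j) →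
    ∀ (E : ℕ) (S : Finset ℤ), S.card = Z + 1 →
      (∀ x ∈ S, ∀ y ∈ S, (p : ℤ) ^ w ∣ x - y → x = y) →
      (∀ x ∈ S, (p : ℤ) ^ E ∣ g.eval x) → E < V + 1 + Z * w := by
  intro Z
  induction Z with
  | zero =>
    intro g hZ hj E S hS _ hE
    obtain ⟨x, hx⟩ : S.Nonempty := by
      rw [← Finset.card_pos]; omega
    by_contra hcon
    push Not at hcon
    apply hZ
    have h1 : (p : ℤ) ^ (V + 1) ∣ g.eval x := (pow_dvd_pow _ (by omega)).trans (hE x hx)
    have h2 : (p : ℤ) ^ (V + 1) ∣ g.eval x - g.coeff 0 := by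
      rw [Polynomial.eval_eq_sum_range' (Nat.lt_succ_self g.natDegree), Finset.sum_range_succ',
        pow_zero, mul_one, add_sub_cancel_right]
      apply Finset.dvd_sum
      intro i _
      exact Dvd.dvd.mul_right (hj (i + 1) (Nat.succ_pos i)) _
    have h3 := _root_.dvd_sub h1 h2
    rwa [sub_sub_cancel] at h3
  | succ Z ih =>
    intro g hZ hj E S hS hsep hE
    obtain ⟨x₀, hx₀⟩ : S.Nonempty := by
      rw [← Finset.card_pos]; omega
    have hroot : (g - C (g.eval x₀)).IsRoot x₀ := by
      simp [Polynomial.IsRoot]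
    obtain ⟨h, hh⟩ := Polynomial.dvd_iff_isRoot.mpr hroot
    have hcoeff : ∀ j, h.coeff j = g.coeff (j + 1) + x₀ * h.coeff (j + 1) := by
      intro j
      have h1 := congrArg (fun q : ℤ[X] => q.coeff (j + 1)) hh
      simp only [coeff_sub, coeff_C_succ, sub_zero] at h1
      rw [sub_mul, coeff_sub, coeff_X_mul, coeff_C_mul] at h1
      linarith
    have hdiv : ∀ l j, h.natDegree < j + l → Z < j → (p : ℤ) ^ (V + 1) ∣ h.coeff j := by
      intro l
      induction l with
      | zero =>
        intro j h1 _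
        rw [Polynomial.coeff_eq_zero_of_natDegree_lt (by omega)]
        exact dvd_zero _
      | succ l ihl =>
        intro j h1 h2
        rw [hcoeff j]
        exact dvd_add (hj (j + 1) (by omega))
          (Dvd.dvd.mul_left (ihl (j + 1) (by omega) (by omega)) _)
    have hdiv' : ∀ j, Z < j → (p : ℤ) ^ (V + 1) ∣ h.coeff j := fun j hj' =>
      hdiv (h.natDegree + 1) j (by omega) hj'
    have hZ' : ¬ (p : ℤ) ^ (V + 1) ∣ h.coeff Z := by
      intro h1
      apply hZ
      have h2 := hdiv' (Z + 1) (Nat.lt_succ_self Z)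
      rw [hcoeff Z] at h1
      exact (dvd_add_left (Dvd.dvd.mul_left h2 _)).mp h1
    have h1 := ih h hZ' hdiv' (E - w) (S.erase x₀)
      (by rw [Finset.card_erase_of_mem hx₀, hS]; rfl)
      (fun x hx y hy => hsep x (Finset.mem_of_mem_erase hx) y (Finset.mem_of_mem_erase hy)) (by
      intro x hx
      have hx' := Finset.mem_of_mem_erase hx
      apply pow_sub_dvd hp (x := x - x₀)
      · have h2 : (x - x₀) * h.eval x = g.eval x - g.eval x₀ := by
          have := congrArg (Polynomial.eval x) hh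
          simp only [eval_sub, eval_C, eval_mul, eval_X] at this
          exact this.symm
        rw [h2]
        exact _root_.dvd_sub (hE x hx') (hE x₀ hx₀)
      · intro h3
        exact Finset.ne_of_mem_erase hx (hsep x hx' x₀ hx₀ h3))
    have : (Z + 1) * w = Z * w + w := by ring
    omega

open Classical in
/-- the number of `t < Q` with `p^E ∣ g(t)`. -/
lemma bad_count' {p : ℕ} (hp : p.Prime) (w E V Z : ℕ) (g : ℤ[X])
    (hZ : ¬ (p : ℤ) ^ (V + 1) ∣ g.coeff Z) (hj : ∀ j, Z < j → (p : ℤ) ^ (V + 1) ∣ g.coeff j)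
    (hE : V + 1 + Z * w ≤ E) (Q : ℕ) :
    ((Finset.range Q).filter (fun t : ℕ => (p : ℤ) ^ E ∣ g.eval (t : ℤ))).card ≤
      (Q / p ^ w + 1) * Z := by
  set A' := (Finset.range Q).filter (fun t : ℕ => (p : ℤ) ^ E ∣ g.eval (t : ℤ)) with hA'
  have hpw : 0 < p ^ w := Nat.pow_pos hp.pos
  have h1 := Finset.card_le_mul_card_image (f := fun t => t % p ^ w) A' (Q / p ^ w + 1) (by
    intro a _
    have : (A'.filter (fun t => t % p ^ w = a)).card ≤ (Finset.range (Q / p ^ w + 1)).card := by
      apply Finset.card_le_card_of_injOn (fun t => t / p ^ w)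
      · intro t ht
        rw [Finset.mem_coe, Finset.mem_filter, hA', Finset.mem_filter, Finset.mem_range] at ht
        rw [Finset.mem_coe, Finset.mem_range, Nat.lt_succ_iff]
        exact Nat.div_le_div_right ht.1.1.le
      · intro t ht t' ht' heq
        rw [Finset.mem_coe, Finset.mem_filter] at ht ht'
        have heq' : t / p ^ w = t' / p ^ w := heq
        rw [← Nat.div_add_mod t (p ^ w), ← Nat.div_add_mod t' (p ^ w), heq', ht.2, ht'.2]
    simpa using this)
  refine h1.trans (Nat.mul_le_mul_left _ ?_)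
  by_contra hcon
  push Not at hcon
  -- choose Z + 1 classes
  obtain ⟨A, hA1, hA2⟩ := Finset.exists_subset_card_eq (Nat.succ_le_of_lt hcon)
  have hex : ∀ a : ℕ, ∃ t : ℕ, a ∈ A → t ∈ A' ∧ t % p ^ w = a := by
    intro a
    by_cases ha : a ∈ A
    · obtain ⟨t, ht, hta⟩ := Finset.mem_image.mp (hA1 ha)
      exact ⟨t, fun _ => ⟨ht, hta⟩⟩
    · exact ⟨0, fun h => absurd h ha⟩
  choose s hs using hex
  have hinj : Set.InjOn (fun a => (s a : ℤ)) (A : Set ℕ) := by
    intro a ha b hb hab
    have hab'' : ((s a : ℕ) : ℤ) = s b := hab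
    have hab' : s a = s b := by exact_mod_cast hab''
    rw [← (hs a ha).2, ← (hs b hb).2, hab']
  have h2 := weier_sep hp w V Z g hZ hj E (A.image (fun a => (s a : ℤ)))
    (by rw [Finset.card_image_of_injOn hinj, hA2])
    (by
      intro x hx y hy hxy
      obtain ⟨a, ha, rfl⟩ := Finset.mem_image.mp hx
      obtain ⟨b, hb, rfl⟩ := Finset.mem_image.mp hy
      have h2 : s b ≡ s a [MOD p ^ w] := by
        rw [← Int.natCast_modEq_iff, Int.modEq_iff_dvd]
        push_cast
        exact hxy
      have h3 : s a % p ^ w = s b % p ^ w := h2.symm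
      rw [(hs a ha).2, (hs b hb).2] at h3
      rw [h3])
    (by
      intro x hx
      obtain ⟨a, ha, rfl⟩ := Finset.mem_image.mp hx
      exact (Finset.mem_filter.mp (hs a ha).1).2)
  omega

/-- decomposition of `n` into a part composed of primes of `d` and a part coprime to `d` -/
lemma exists_coprime_part (d n : ℕ) (hn : n ≠ 0) :
    ∃ a b : ℕ, n = a * b ∧ Nat.Coprime b d ∧ (∀ p : ℕ, p.Prime → p ∣ a → p ∣ d) ∧ a ≠ 0 ∧ b ≠ 0 := by
  have ha : Nat.gcd n (d ^ n) ∣ n := Nat.gcd_dvd_left _ _
  obtain ⟨b, hb⟩ := ha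
  have ha0 : Nat.gcd n (d ^ n) ≠ 0 := Nat.gcd_ne_zero_left hn
  have hb0 : b ≠ 0 := by
    rintro rfl
    exact hn (by rw [hb, mul_zero])
  refine ⟨Nat.gcd n (d ^ n), b, hb, ?_, ?_, ha0, hb0⟩
  · rw [Nat.coprime_iff_gcd_eq_one]
    by_contra hcon
    obtain ⟨p, hp, hpd⟩ := Nat.exists_prime_and_dvd hcon
    have hpb : p ∣ b := hpd.trans (Nat.gcd_dvd_left _ _)
    have hpd' : p ∣ d := hpd.trans (Nat.gcd_dvd_right _ _)
    have h1 : (Nat.gcd n (d ^ n)).factorization p = n.factorization p := by
      apply le_antisymm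
      · exact (Nat.factorization_prime_le_iff_dvd ha0 hn).mpr (Nat.gcd_dvd_left _ _) p hp
      · have h2 : p ^ n.factorization p ∣ Nat.gcd n (d ^ n) := by
          apply Nat.dvd_gcd (Nat.ordProj_dvd n p)
          calc p ^ n.factorization p ∣ p ^ n :=
                pow_dvd_pow _ (Nat.factorization_lt p hn).le
            _ ∣ d ^ n := pow_dvd_pow_of_dvd hpd' n
        exact (hp.pow_dvd_iff_le_factorization ha0).mp h2
    have h2 : n.factorization p = (Nat.gcd n (d ^ n)).factorization p + b.factorization p := by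
      conv_lhs => rw [hb]
      rw [Nat.factorization_mul ha0 hb0]
      rfl
    have h3 : 0 < b.factorization p := hp.factorization_pos_of_dvd hb0 hpb
    omega
  · intro p hp hpa
    exact hp.dvd_of_dvd_pow (hpa.trans (Nat.gcd_dvd_right _ _))

/-- `v_p(i!) < i` for `i ≥ 1`. -/
lemma factorial_val {p i : ℕ} (hp : p.Prime) (hi : 1 ≤ i) :
    (Nat.factorial i).factorization p < i := by
  have : Fact p.Prime := ⟨hp⟩
  have h4 := sub_one_mul_padicValNat_factorial (p := p) i
  rw [← Nat.factorization_def _ hp] at h4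
  have h5 : 0 < (p.digits i).sum := by
    have hne : p.digits i ≠ [] := Nat.digits_ne_nil_iff_ne_zero.mpr (by omega)
    have hlast := Nat.getLast_digit_ne_zero p (by omega : i ≠ 0)
    have hmem := List.getLast_mem hne
    have := List.single_le_sum (l := p.digits i) (fun x _ => Nat.zero_le x) _ hmem
    omega
  have h6 : (Nat.factorial i).factorization p ≤ (p - 1) * (Nat.factorial i).factorization p :=
    Nat.le_mul_of_pos_left _ (by have := hp.two_le; omega)
  omega

end Pool.Agent.Helper68.Moeller
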